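import Pool.Agent.Helper17_EU.StmtsF

/-! # CIRC: from closed curves on the interval to the circle -/

open Set Metric Topology unitInterval

noncomputable section

namespace Pool.Agent.EU.H8

universe u

variable {X : Type u}

theorem circ_of_homeo [MetricSpace X] (h : Nonempty (X ≃ₜ Circle)) : Eulerian X := by
  obtain ⟨e⟩ := h
  refine ⟨⟨e.symm, e.symm.continuous⟩, e.symm.surjective, ?_⟩
  intro C _ hC hu
  apply hC
  rw [eq_univ_iff_forall]
  intro z
  have hz : e.symm z ∈ (⇑(⟨e.symm, e.symm.continuous⟩ : C(Circle, X))) '' C := by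
    rw [hu]; trivial
  obtain ⟨c, hc, hcz⟩ := hz
  have : c = z := e.symm.injective hcz
  exact this ▸ hc

theorem circ_of_curve [MetricSpace X] (h : ∃ g : C(I, X), EdgeSys.StronglyIrr g) :
    Eulerian X := by
  obtain ⟨g, h01, hs, hirr⟩ := h
  set f : ℝ → X := fun t => g (projIcc (0 : ℝ) 1 zero_le_one t) with hf
  have hfc : Continuous f := g.continuous.comp continuous_projIcc
  have hf0 : f 0 = g 0 := by
    simp only [hf]
    congr 1
    exact projIcc_left zero_le_one
  have hf1 : f 1 = g 1 := by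
    simp only [hf]
    congr 1
    exact projIcc_right zero_le_one
  haveI : Fact ((0 : ℝ) < 1) := ⟨zero_lt_one⟩
  set G : AddCircle (1 : ℝ) → X := AddCircle.liftIco 1 0 f with hG
  have hGc : Continuous G := by
    refine AddCircle.liftIco_zero_continuous ?_ hfc.continuousOn
    rw [hf0, hf1, h01]
  have hGt : ∀ t ∈ Ico (0 : ℝ) 1, G (t : AddCircle (1 : ℝ)) = f t := by
    intro t ht
    exact AddCircle.liftIco_zero_coe_apply ht
  have hex : ∀ z : AddCircle (1 : ℝ), ∃ t ∈ Ico (0 : ℝ) 1, (t : AddCircle (1 : ℝ)) = z := by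
    intro z
    have hz := (AddCircle.coe_image_Ico_eq (1 : ℝ) 0)
    have : z ∈ ((↑) : ℝ → AddCircle (1 : ℝ)) '' Ico 0 (0 + 1) := by rw [hz]; trivial
    obtain ⟨t, ht, rfl⟩ := this
    exact ⟨t, by simpa using ht, rfl⟩
  set e : AddCircle (1 : ℝ) ≃ₜ Circle := AddCircle.homeomorphCircle one_ne_zero
  refine ⟨⟨fun z => G (e.symm z), hGc.comp e.symm.continuous⟩, ?_, ?_⟩
  · intro x
    obtain ⟨t, rfl⟩ := hs x
    rcases eq_or_ne t 1 with rfl | ht1
    · refine ⟨e ((0 : ℝ) : AddCircle (1 : ℝ)), ?_⟩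
      change G (e.symm (e _)) = _
      rw [e.symm_apply_apply, hGt 0 ⟨le_refl _, zero_lt_one⟩, hf0, h01]
    · have htm : (t : ℝ) ∈ Ico (0 : ℝ) 1 := ⟨t.2.1, lt_of_le_of_ne t.2.2 (fun h => ht1 (by
        apply Subtype.ext
        simpa using h))⟩
      refine ⟨e ((t : ℝ) : AddCircle (1 : ℝ)), ?_⟩
      change G (e.symm (e _)) = _
      rw [e.symm_apply_apply, hGt _ htm]
      simp only [hf]
      congr 1
      exact projIcc_val zero_le_one t
  · intro C hC hne hu
    set J : Set I := {t : I | e (((t : ℝ) : AddCircle (1 : ℝ))) ∉ C} with hJ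
    have hJo : IsOpen J := by
      have : Continuous (fun t : I => e (((t : ℝ) : AddCircle (1 : ℝ)))) :=
        e.continuous.comp ((AddCircle.continuous_mk' (1 : ℝ)).comp continuous_subtype_val)
      exact hC.isOpen_compl.preimage this
    have hJn : J.Nonempty := by
      obtain ⟨z, hz⟩ := (ne_univ_iff_exists_notMem C).1 hne
      obtain ⟨t, ht, htz⟩ := hex (e.symm z)
      refine ⟨⟨t, ht.1, ht.2.le⟩, ?_⟩
      change e ((t : ℝ) : AddCircle (1 : ℝ)) ∉ C
      rw [htz, e.apply_symm_apply]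
      exact hz
    apply hirr J hJo hJn
    rw [eq_univ_iff_forall]
    intro x
    have hx : x ∈ (fun z => G (e.symm z)) '' C := by
      have := hu
      change (fun z => G (e.symm z)) '' C = univ at this
      rw [this]; trivial
    obtain ⟨z, hz, rfl⟩ := hx
    obtain ⟨t, ht, htz⟩ := hex (e.symm z)
    refine ⟨⟨t, ht.1, ht.2.le⟩, ?_, ?_⟩
    · intro hmem
      apply hmem
      change e ((t : ℝ) : AddCircle (1 : ℝ)) ∈ C
      rw [htz, e.apply_symm_apply]
      exact hz
    · change _ = G (e.symm z)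
      rw [← htz, hGt t ht]
      simp only [hf]
      congr 1
      exact (projIcc_of_mem zero_le_one ⟨ht.1, ht.2.le⟩).symm

/-- CIRC -/
theorem circ [MetricSpace X] : CircStmt X := ⟨circ_of_curve, circ_of_homeo⟩

end Pool.Agent.EU.H8
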