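import Pool.Agent.Helper8_EU.HKb
import Pool.Agent.Helper17_EU.StmtsT

/-! # HK: the key estimate -/

open Set Metric Topology unitInterval

noncomputable section

namespace Pool.Agent.EU.H8

open Pool.Agent.EU EdgeSys

universe u v

variable {X : Type u} [MetricSpace X] {ι : Type v} {𝓔 : EdgeSys X ι}

theorem exists_pos_finset {α : Type*} (s : Set α) (hs : s.Finite) (P : α → ℝ → Prop)
    (hmono : ∀ a ∈ s, ∀ x y, 0 < x → x ≤ y → P a y → P a x)
    (h : ∀ a ∈ s, ∃ x > 0, P a x) : ∃ x > 0, ∀ a ∈ s, P a x := by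
  induction s, hs using Set.Finite.induction_on with
  | empty => exact ⟨1, one_pos, by simp⟩
  | @insert a s _ _ ih =>
    obtain ⟨x, hx, hP⟩ := ih (fun b hb => hmono b (mem_insert_of_mem _ hb))
      (fun b hb => h b (mem_insert_of_mem _ hb))
    obtain ⟨y, hy, hQ⟩ := h a (mem_insert _ _)
    refine ⟨min x y, lt_min hx hy, ?_⟩
    intro b hb
    rcases mem_insert_iff.1 hb with rfl | hb'
    · exact hmono _ (mem_insert _ _) _ _ (lt_min hx hy) (min_le_right _ _) hQ
    · exact hmono _ (mem_insert_of_mem _ hb') _ _ (lt_min hx hy) (min_le_left _ _) (hP b hb')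

theorem isClosed_G : IsClosed 𝓔.G := (isOpen_iUnion (fun i => 𝓔.opn i)).isClosed_compl

theorem clopen_sep [CompactSpace X] {K : Set X} (hK : 𝓔.ClopenG K) :
    ∃ x > (0 : ℝ), ∀ y ∈ K, ∀ z ∈ 𝓔.G \ K, x < dist y z := by
  obtain ⟨r, hr, h⟩ := Metric.exists_pos_forall_lt_edist (hK.2.1.isCompact) hK.2.2
    (disjoint_sdiff_right)
  refine ⟨r, by exact_mod_cast hr, ?_⟩
  intro y hy z hz
  have := h y hy z hz
  rw [edist_dist] at this
  have h2 := (ENNReal.lt_ofReal_iff_toReal_lt (by simp)).1 this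
  simpa using h2

theorem top_V_G {T : 𝓔.Tower} {M : Set X} {p : X} (hT : 𝓔.TopOK T M p) {n : ℕ} {x : X}
    (hx : x ∈ T.V n) : x ∈ 𝓔.G := by
  obtain ⟨l, h1, h2, h3⟩ := mem_V.1 hx
  rcases eq_or_lt_of_le h1 with rfl | h1'
  · rw [hT.U1, Finset.mem_singleton] at h3
    rw [h3]
    exact hT.pG
  · exact (hT.levelA l h1').UG x h3

open Classical in
theorem hk [CompactSpace X] (hCont : 𝓔.ContStmt) (hCF : 𝓔.ContFullStmt) (hTame : 𝓔.TameStmt)
    (hCross : 𝓔.CrossStmt) (hNR : 𝓔.NonRichStmt) (hNull : 𝓔.NullStmt)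
    (hXF : 𝓔.CrossFinStmt) (hPieces : 𝓔.PiecesStmt) : 𝓔.HKStmt := by
  intro T M p hT k hk3
  obtain ⟨q, rfl⟩ : ∃ q, k = q + 1 := ⟨k - 1, by omega⟩
  have hq2 : 2 ≤ q := by omega
  -- the arcs of the levels below `q + 1`
  set A : Set (ℕ × ℕ) := {x | 2 ≤ x.1 ∧ x.1 < q + 1 ∧ x.2 ∈ T.ids x.1} with hAdef
  have hAfin : A.Finite := by
    refine (((Set.finite_Iio (q + 1)).biUnion (fun n _ =>
      ((T.ids n).toFinset.finite_toSet.image (fun j => (n, j)))))).subset ?_
    rintro ⟨n, j⟩ ⟨h1, h2, h3⟩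
    simp only [mem_iUnion, mem_image]
    exact ⟨n, h2, j, by simpa using h3, rfl⟩
  set cnt : ℕ := ∑ l ∈ Finset.range (q + 1), (T.slots l).length with hcnt
  set Nk : ℕ := ∑ n ∈ Finset.Ico 2 (q + 1), (T.ids n).length * (1 + cnt) with hNk
  have hκ1 : 0 < T.κ (q + 1) := (hT.levelA (q + 1) (by omega)).κpos
  set θ : ℝ := T.κ (q + 1) / (Nk + 1) with hθdef
  have hNk1 : (0 : ℝ) < (Nk : ℝ) + 1 := by positivity
  have hθ : 0 < θ := div_pos hκ1 hNk1
  have hθκ : θ ≤ T.κ (q + 1) := by
    rw [hθdef, div_le_iff₀ hNk1]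
    have : (0 : ℝ) ≤ (Nk : ℝ) := by positivity
    nlinarith
  have hNθ : θ * Nk ≤ T.κ (q + 1) := by
    rw [hθdef, div_mul_eq_mul_div, div_le_iff₀ hNk1]
    nlinarith
  have hSD : ∀ x ∈ A, ∃ (l : ℕ) (Fk : Set ι) (Tk : Set I), q + 1 ≤ l ∧ x.1 < l ∧ Fk.Finite ∧
      Tk.Finite ∧ 𝓔.Fine (T.arc x.1 x.2) Fk Tk θ ∧
      ∀ τ ∈ Tk, ∃ D, (D, (x.1, x.2), τ) ∈ T.DS l :=
    fun x hx => hT.slotsDense x.1 hx.1 x.2 hx.2.2 (q + 1) θ hθ
  choose! lv Fk Tk hlv using hSD
  have hNRu : ∀ u ∈ T.U (q + 1), ¬ 𝓔.Rich u →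
      ∃ K, 𝓔.ClopenG K ∧ u ∈ K ∧ Disjoint K (↑(T.V q) : Set X) := by
    intro u hu hur
    have hA1 := hT.levelA (q + 1) (by omega)
    have hA2 := hA1.Udisj u hu
    exact hNR u (hA1.UG u hu) hur _ (T.V q).finite_toSet (by simpa using hA2)
  choose! K hK using hNRu
  set NRs : Set X := {u | u ∈ T.U (q + 1) ∧ ¬ 𝓔.Rich u} with hNRs
  have hNRsfin : NRs.Finite := (T.U (q + 1)).finite_toSet.subset (fun u hu => hu.1)
  set E1 : Set (ι ⊕ ℕ) := Sum.inl '' {i | 𝓔.φ i 0 ∈ T.V q ∧ 𝓔.φ i 1 ∈ T.V q} with hE1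
  set E2 : Set (ι ⊕ ℕ) := ⋃ x ∈ A, (Sum.inl '' Fk x ∪ {y | ∃ D ∈ T.DS (lv x), D.1.lm = y}) with hE2
  set E3 : Set (ι ⊕ ℕ) := {y | ∃ D ∈ T.DV (q + 2), D.lm = y} with hE3
  set E4 : Set (ι ⊕ ℕ) := ⋃ u ∈ NRs, Sum.inl '' 𝓔.cross (K u) with hE4
  have hE1fin : E1.Finite := by
    refine Set.Finite.image _ ?_
    have hB := hT.levelB (q + 1) (by omega)
    refine (hNull (T.κ (q + 2)) hB.κpos').subset ?_
    rintro i ⟨h0, h1⟩ hsm
    have hne : 𝓔.φ i 0 ≠ 𝓔.φ i 1 := fun h => by
      have := 𝓔.inj i h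
      simp at this
    have h1' := hB.κd _ h0 _ h1 hne
    have h2' := hsm _ (mem_range_self (0 : I)) _ (mem_range_self (1 : I))
    exact absurd h2' (not_le.2 h1')
  have hE2fin : E2.Finite := by
    refine hAfin.biUnion (fun x hx => ?_)
    refine Set.Finite.union ((hlv x hx).2.2.1.image _) ?_
    refine ((T.DS (lv x)).toFinset.finite_toSet.image (fun D => D.1.lm)).subset ?_
    rintro y ⟨D, hD, rfl⟩
    exact ⟨D, by simpa using hD, rfl⟩
  have hE3fin : E3.Finite := by
    refine ((T.DV (q + 2)).toFinset.finite_toSet.image (fun D => D.lm)).subset ?_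
    rintro y ⟨D, hD, rfl⟩
    exact ⟨D, by simpa using hD, rfl⟩
  have hE4fin : E4.Finite := by
    refine hNRsfin.biUnion (fun u hu => ?_)
    exact (hXF _ (hK u hu.1 hu.2).1).image _
  set E : Set (ι ⊕ ℕ) := E1 ∪ E2 ∪ E3 ∪ E4 with hE
  have hEfin : E.Finite := ((hE1fin.union hE2fin).union hE3fin).union hE4fin
  obtain ⟨η0, hη0, hη0K⟩ := exists_pos_finset NRs hNRsfin
    (fun u x => ∀ y ∈ K u, ∀ z ∈ 𝓔.G \ K u, x < dist y z)
    (fun u _ x y _ hxy h a ha b hb => lt_of_le_of_lt hxy (h a ha b hb))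
    (fun u hu => clopen_sep (hK u hu.1 hu.2).1)
  obtain ⟨N1, hN1⟩ : ∃ N1 : ℕ, ∀ x ∈ A, lv x ≤ N1 := by
    obtain ⟨B, hB⟩ := (hAfin.image lv).bddAbove
    exact ⟨B, fun x hx => hB (mem_image_of_mem _ hx)⟩
  refine ⟨E, {i | Sum.inl i ∈ E}, η0, q + 3 + N1 + 1, hEfin,
    hEfin.preimage (Sum.inl_injective.injOn), hη0, ?_, fun i hi => hi, ?_⟩
  · -- markers
    intro j hj
    rcases hj with ((hj | hj) | hj) | hj
    · obtain ⟨i, _, hi⟩ := hj
      exact absurd hi (by simp)
    · simp only [hE2, mem_iUnion] at hj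
      obtain ⟨x, hx, hj⟩ := hj
      rcases hj with ⟨i, _, hi⟩ | ⟨D, hD, hDj⟩
      · exact absurd hi (by simp)
      · have h2 : 2 ≤ lv x := by
          have := (hlv x hx).1
          omega
        have hok := ((hT.levelB _ h2).DSok D hD).1
        exact ⟨lv x, List.mem_map.2 ⟨_, marks_of_DS hD (deco_mark hok hDj), rfl⟩⟩
    · obtain ⟨D, hD, hDj⟩ := hj
      have hok := ((hT.levelB (q + 2) (by omega)).DVok D hD).1
      exact ⟨q + 2, List.mem_map.2 ⟨_, marks_of_DV hD (deco_mark hok hDj), rfl⟩⟩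
    · simp only [hE4, mem_iUnion] at hj
      obtain ⟨u, _, i, _, hi⟩ := hj
      exact absurd hi (by simp)
  intro m hm T' η F C0 bw C SW g hag hκ hρ hr hη hηη0 hF hAm hCm hbw hCC hSW hpw hCOK hAsm
    hg1 hgW hgood w1 w2 w3 hgw hwE
  have hag' : Agree T T' m := hag
  have R : Run T' M m η F C0 bw SW := by
    refine ⟨?_, ?_, hCm, hbw, hSW, hη⟩
    · intro n h2 hn
      rcases lt_or_eq_of_le hn with hlt | rfl
      · exact hag'.levelA hκ hρ hr h2 hlt (hT.levelA n h2)
      · exact hAm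
    · intro n h2 hlt
      exact hag'.levelB hκ hρ hr h2 hlt (hT.levelB n h2)
  have hlmF : ∀ (D : Deco X ι), D.lm ∈ E → ∀ i, D.lm = Sum.inl i → i ∈ F := by
    intro D hD i hi
    apply hF
    change Sum.inl i ∈ E
    rw [← hi]
    exact hD
  -- pieces of the arcs
  have hRp : ∀ x ∈ A, ∃ Rp : Multiset (List (Step X ι)),
      Asm (Rp + Multiset.ofList
        (((T'.slotsOn m SW x.1 x.2).filter (fun p => p.2.1 < q + 1)).map (fun p => p.2.2)))
        {T'.cont m bw SW x.1 x.2} ∧
      Rp.card ≤ 1 + cnt ∧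
      ∀ w ∈ Rp, 𝓔.Basic E (3 * T.κ (q + 1)) θ w := by
    intro x hx
    obtain ⟨h1, h2, h3, h4, h5, h6⟩ := hlv x hx
    have hlvm : lv x < m := by
      have := hN1 x hx
      omega
    have hxm : x.1 < m := by omega
    obtain ⟨Rp, ha, hb, hc⟩ := R.pieces hCont (k := q + 1) (n := x.1) (j := x.2) hx.1 hx.2.1
      (by omega) (by rw [hag'.ids hxm]; exact hx.2.2) (E := E) hθ.le (Fk := Fk x) (Tk := Tk x)
      (by rw [hag'.arc hxm]; exact h5)
      (by
        intro i hi
        apply hF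
        exact Or.inl (Or.inl (Or.inr (mem_biUnion hx (Or.inl ⟨i, hi, rfl⟩)))))
      (by
        intro i hi
        exact Or.inl (Or.inl (Or.inr (mem_biUnion hx (Or.inl ⟨i, hi, rfl⟩)))))
      (by
        intro τ hτ
        obtain ⟨D, hD⟩ := h6 τ hτ
        obtain ⟨pw, hpw'⟩ := hpw (lv x) (by omega) (by omega)
        have hDT : (D, (x.1, x.2), τ) ∈ T'.DS (lv x) := by
          rw [hag'.DS hlvm]; exact hD
        refine ⟨(τ, lv x, T'.dcont m bw SW (lv x) D),
          slot_of_DS h2 hlvm.le hpw' hDT, rfl, h1, ?_⟩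
        have hDE : D.lm ∈ E := Or.inl (Or.inl (Or.inr (mem_biUnion hx (Or.inr ⟨_, hD, rfl⟩))))
        refine ⟨D.lm, ?_, hDE⟩
        have hok := ((R.hB (lv x) (by omega) hlvm).DSok _ hDT).1
        exact (R.dcont hCF (by omega) hlvm hok (ids_of_DS hDT)).2.2 (hlmF D hDE))
    refine ⟨Rp, ha, ?_, ?_⟩
    · have he : ∑ l ∈ Finset.range (q + 1), (T'.slots l).length = cnt := by
        refine Finset.sum_congr rfl (fun l hl => ?_)
        rw [hag'.slots (by have := Finset.mem_range.1 hl; omega)]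
      rw [he] at hb
      exact hb
    · intro w hw
      refine basic_mono (hc w hw) ?_ le_rfl
      rw [hκ]
      linarith
  choose! Rp hRp1 hRp2 hRp3 using hRp
  have hP := hPieces T' m bw C SW (q + 1) (fun n j => Rp (n, j)) g
    (fun n h2 hn h hh => (R.host h2 hn hh).1)
    (by
      intro n h2 hn
      rcases lt_or_eq_of_le hn with hlt | rfl
      · exact (R.hB n h2 hlt).idsNodup
      · unfold Tower.ids
        rw [R.hC.noFA, R.hC.noDV, R.hC.noDS]
        simp)
    (fun n h2 hn => (R.hSW n h2 hn).length_eq.symm)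
    hAsm (by omega) (by omega)
    (by
      intro n h2 hn j hj
      have hx : (n, j) ∈ A := ⟨h2, hn, by rw [← hag'.ids (by omega : n < m)]; exact hj⟩
      exact hRp1 (n, j) hx)
    (by rw [hag'.DV (by omega : 2 < m)]; exact hT.dv2) hg1
  have hgoodP : ∀ w ∈ und (C (q + 1 - 1)) +
      Multiset.ofList ((T'.DV (q + 1)).map (T'.dcont m bw SW (q + 1))) +
        (∑ n ∈ Finset.Ico 2 (q + 1), ((T'.ids n : Multiset ℕ).map (fun j => Rp (n, j))).sum) +
        (∑ n ∈ Finset.Ico 2 (q + 1), Multiset.ofList ((T'.marks n).map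
          (fun p => ([Step.mark p.1 p.2] : List (Step X ι))))), ∀ s ∈ w, 𝓔.GoodStep η s := by
    intro w hw s hs
    obtain ⟨g', hg', h⟩ := hP.exists_step ⟨w, hw, Or.inl hs⟩
    rw [Multiset.mem_singleton] at hg'
    subst hg'
    rcases h with h | h
    · exact hgood s h
    · have := (hgood _ h).rev
      rwa [Step.rev_rev] at this
  set P1 : Multiset (List (Step X ι)) := und (C (q + 1 - 1)) with hP1
  set P2 : Multiset (List (Step X ι)) :=
    Multiset.ofList ((T'.DV (q + 1)).map (T'.dcont m bw SW (q + 1))) with hP2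
  set P3 : Multiset (List (Step X ι)) :=
    (∑ n ∈ Finset.Ico 2 (q + 1), Multiset.ofList ((T'.marks n).map
      (fun p => ([Step.mark p.1 p.2] : List (Step X ι))))) with hP3
  set Rt : Multiset (List (Step X ι)) :=
    (∑ n ∈ Finset.Ico 2 (q + 1), ((T'.ids n : Multiset ℕ).map (fun j => Rp (n, j))).sum) with hRt
  set D : Multiset (ℝ × List (Step X ι)) :=
    (P1 + P2 + P3).map (fun w => ((0 : ℝ), w)) + Rt.map (fun w => (θ, w)) with hD
  have hDsnd : D.map Prod.snd = P1 + P2 + Rt + P3 := by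
    simp only [hD, Multiset.map_add, Multiset.map_map, Function.comp_def, Multiset.map_id']
    abel
  have hDfst : (D.map Prod.fst).sum = Rt.card * θ := by
    simp only [hD, Multiset.map_add, Multiset.map_map, Function.comp_def, Multiset.sum_add,
      Multiset.map_const', Multiset.sum_replicate, smul_zero, nsmul_eq_mul, zero_add]
  have hRtcard : Rt.card ≤ Nk := by
    rw [hRt, hNk, Multiset.card_sum]
    refine Finset.sum_le_sum (fun n hn => ?_)
    obtain ⟨hn2, hnq⟩ := Finset.mem_Ico.1 hn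
    have hids : T'.ids n = T.ids n := hag'.ids (by omega)
    have h1 : (((T'.ids n : Multiset ℕ).map (fun j => Rp (n, j))).sum).card =
        (((T'.ids n : Multiset ℕ).map (fun j => (Rp (n, j)).card))).sum := by
      have := Multiset.card_join ((T'.ids n : Multiset ℕ).map (fun j => Rp (n, j)))
      rw [Multiset.map_map] at this
      exact this
    rw [h1]
    refine (Multiset.sum_le_card_nsmul _ (1 + cnt) ?_).trans ?_
    · intro x hx
      obtain ⟨j, hj, rfl⟩ := Multiset.mem_map.1 hx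
      exact hRp2 (n, j) ⟨hn2, hnq, by rw [← hids]; exact hj⟩
    · rw [Multiset.card_map, Multiset.coe_card, hids, smul_eq_mul]
  have hbasic : ∀ p ∈ D, 0 ≤ p.1 ∧ 𝓔.Basic E (3 * T.κ (q + 1)) p.1 p.2 := by
    intro x hx
    rcases Multiset.mem_add.1 hx with hx | hx
    · obtain ⟨w, hw, rfl⟩ := Multiset.mem_map.1 hx
      refine ⟨le_rfl, ?_⟩
      change 𝓔.Basic E (3 * T.κ (q + 1)) 0 w
      have hgw : ∀ s ∈ w, 𝓔.GoodStep η s := by
        apply hgoodP
        rcases Multiset.mem_add.1 hw with hw | hw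
        · exact Multiset.mem_add.2 (Or.inl (Multiset.mem_add.2 (Or.inl hw)))
        · exact Multiset.mem_add.2 (Or.inr hw)
      rcases Multiset.mem_add.1 hw with hw | hw
      · rcases Multiset.mem_add.1 hw with hw | hw
        · -- walks over `V q`
          obtain ⟨tw, htw, rfl⟩ := Multiset.mem_map.1 hw
          obtain ⟨h1, h2, h3, h4, h5⟩ := hCOK q (by omega) (by omega) tw htw
          rw [hag'.V (by omega : q < m)] at h2 h3
          by_cases hsing : ∃ i b, tw.2.1 = [Step.edge i b]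
          · obtain ⟨i, b, hib⟩ := hsing
            refine basic_mono (κ := 0) (a := 0) ?_ (by linarith) le_rfl
            rw [hib]
            apply basic_single
            refine Or.inl (Or.inl (Or.inl ⟨i, ?_, rfl⟩))
            have h1' : 𝓔.IsW tw.1 tw.2.1 tw.2.2 := h1
            rw [hib, IsW.cons_iff, IsW.nil_iff] at h1'
            have hs : 𝓔.src (Step.edge i b : Step X ι) ∈ T.V q := by rw [← h1'.1]; exact h2
            have ht : 𝓔.tgt (Step.edge i b : Step X ι) ∈ T.V q := by rw [h1'.2]; exact h3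
            cases b
            · exact ⟨by simpa [tgt] using ht, by simpa [src] using hs⟩
            · exact ⟨by simpa [src] using hs, by simpa [tgt] using ht⟩
          · have h4' := h4.resolve_left hsing
            have h5' := h5.resolve_left hsing
            rw [hκ] at h4'
            refine basic_mono (κ := T.κ (q + 1)) (a := 0) ?_ (by linarith) le_rfl
            refine basic_of hκ1.le (Small.mono h4' (fun z hz => Or.inl hz) le_rfl) ?_
            intro x y hxy hne
            have hx1 : x = tw.1 := IsW.start_unique hne hxy h1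
            subst hx1
            have hy1 : y = tw.2.2 := IsW.end_unique hxy h1
            subst hy1
            rcases h5' with h5' | h5' | ⟨u, hu, wa, wb, hwab, hwa, hu2⟩
            · exact Or.inr h5'
            · omega
            · left
              rw [hag'.U' (by omega : q + 1 < m)] at hu
              have huU := (mem_U'.1 hu).1
              by_cases hur : 𝓔.Rich u
              · have hmany := hT.many (q + 1) (by omega) u huU hur
                rw [hag'.V (by omega : q + 1 < m), hag'.DV (by omega : q + 2 < m)] at hu2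
                obtain ⟨D0, hD0, hbase, hitems⟩ := hu2 hmany
                have hDE : D0.lm ∈ E := Or.inl (Or.inr ⟨D0, hD0, rfl⟩)
                have hD0' : D0 ∈ T'.DV (q + 2) := by
                  rw [hag'.DV (by omega : q + 2 < m)]; exact hD0
                have hok := ((R.hB (q + 2) (by omega) (by omega)).DVok _ hD0').1
                exact ⟨D0.lm, hitems _ ((R.dcont hCF (by omega) (by omega) hok
                  (ids_of_DV hD0')).2.2 (hlmF D0 hDE)), hDE⟩
              · have hKu := hK u huU hur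
                have huN : u ∈ NRs := ⟨huU, hur⟩
                have hnot : tw.1 ∉ K u := fun h => Set.disjoint_left.1 hKu.2.2 h (by simpa using h2)
                obtain ⟨i, hi, hin⟩ := hCross (K u) η hKu.1
                  (fun a ha b hb => lt_of_le_of_lt hηη0 (hη0K u huN a ha b hb)) wa tw.1 u
                  (top_V_G hT h2) hwa (fun s hs => hgw s (by
                    rw [hwab]; exact List.mem_append_left _ hs))
                  (fun h => hnot (h.2 hKu.2.1))
                refine ⟨Sum.inl i, ?_, ?_⟩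
                · rw [hwab, items_append]
                  exact List.mem_append_left _ hin
                · exact Or.inr (mem_biUnion huN ⟨i, hi, rfl⟩)
        · -- decorations of level `q + 1`
          obtain ⟨D0, hD0, rfl⟩ := List.mem_map.1 (Multiset.mem_coe.1 hw)
          have hok := ((R.hB (q + 1) (by omega) (by omega)).DVok _ hD0).1
          obtain ⟨ha, hb, _⟩ := R.dcont hCF (by omega) (by omega) hok (ids_of_DV hD0)
          have hκ2 : 0 < T'.κ (q + 1 + 1) := R.kappa_pos (by omega) (by omega)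
          refine basic_mono (basic_closed (by linarith) ha hb) ?_ le_rfl
          have := (hT.levelB (q + 1) (by omega)).κκ
          rw [hκ]
          linarith
      · -- markers
        obtain ⟨n, hn, hw⟩ := Multiset.mem_sum.1 hw
        obtain ⟨pr, _, rfl⟩ := List.mem_map.1 (Multiset.mem_coe.1 hw)
        exact basic_mono basic_mark (by linarith) le_rfl
    · obtain ⟨w, hw, rfl⟩ := Multiset.mem_map.1 hx
      refine ⟨hθ.le, ?_⟩
      obtain ⟨n, hn, hw⟩ := Multiset.mem_sum.1 hw
      obtain ⟨Rn, hRn, hw⟩ := Multiset.mem_join.1 hw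
      obtain ⟨j, hj, rfl⟩ := Multiset.mem_map.1 hRn
      obtain ⟨hn2, hnq⟩ := Finset.mem_Ico.1 hn
      exact hRp3 (n, j) ⟨hn2, hnq, by rw [← hag'.ids (by omega : n < m)]; exact hj⟩ w hw
  have hfin := hTame E (3 * T.κ (q + 1)) D g p (by linarith) hbasic (by rw [hDsnd]; exact hP)
    hgW w1 w2 w3 hgw hwE
  refine Small.mono hfin subset_rfl ?_
  rw [hDfst]
  have : (Rt.card : ℝ) ≤ Nk := by exact_mod_cast hRtcard
  nlinarith

end Pool.Agent.EU.H8
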