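import Pool.Agent.Helper8_EU.Xsysa

/-! # XSYS: the edge system of the halves of the maximal free arcs -/

open Set Metric Topology unitInterval

noncomputable section

namespace Pool.Agent.EU.H8

open Pool.Agent.EU EdgeSys

universe u v

variable {X : Type u} [MetricSpace X]

/-- the midpoint -/
def half : I := ⟨1 / 2, by norm_num, by norm_num⟩

/-- parametrisations of the two halves -/
def hm (b : Bool) : C(I, I) :=
  ⟨fun t => ⟨((if b then 1 else 0) + (t : ℝ)) / 2, by
      have := t.2.1; have := t.2.2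
      cases b <;> constructor <;> simp <;> linarith⟩,
    Continuous.subtype_mk (by fun_prop) (fun t => by
      have := t.2.1; have := t.2.2
      cases b <;> constructor <;> simp <;> linarith)⟩

theorem hm_val (b : Bool) (t : I) : (hm b t : ℝ) = ((if b then 1 else 0) + (t : ℝ)) / 2 := rfl

theorem hm_f0 : hm false 0 = 0 := by apply Subtype.ext; rw [hm_val]; simp
theorem hm_f1 : hm false 1 = half := by apply Subtype.ext; rw [hm_val]; simp [half]
theorem hm_t0 : hm true 0 = half := by apply Subtype.ext; rw [hm_val]; simp [half]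
theorem hm_t1 : hm true 1 = 1 := by apply Subtype.ext; rw [hm_val]; norm_num

theorem hm_inj (b : Bool) : Function.Injective (hm b) := by
  intro s t h
  have := congrArg (fun x : I => (x : ℝ)) h
  simp only [hm_val] at this
  apply Subtype.ext
  linarith

/-- the two open halves -/
def hset (b : Bool) : Set I := if b then Ioo half 1 else Ioo 0 half

theorem hm_image (b : Bool) : hm b '' Ioo 0 1 = hset b := by
  ext t
  have ht0 := t.2.1
  have ht1 := t.2.2
  cases b
  · simp only [hset, Bool.false_eq_true, if_false]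
    constructor
    · rintro ⟨s, hs, rfl⟩
      have h1 : (0 : ℝ) < s := hs.1
      have h2 : (s : ℝ) < 1 := hs.2
      constructor
      · change (0 : ℝ) < (hm false s : ℝ)
        rw [hm_val]; simp only [Bool.false_eq_true, if_false, if_true, zero_add]; linarith
      · change (hm false s : ℝ) < 1 / 2
        rw [hm_val]; simp only [Bool.false_eq_true, if_false, if_true, zero_add]; linarith
    · rintro ⟨h1, h2⟩
      have h1' : (0 : ℝ) < t := h1
      have h2' : (t : ℝ) < 1 / 2 := h2
      refine ⟨⟨2 * t, by linarith, by linarith⟩, ⟨?_, ?_⟩, ?_⟩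
      · change (0 : ℝ) < 2 * (t : ℝ); linarith
      · change 2 * (t : ℝ) < 1; linarith
      · apply Subtype.ext; rw [hm_val]; simp
  · simp only [hset, if_true]
    constructor
    · rintro ⟨s, hs, rfl⟩
      have h1 : (0 : ℝ) < s := hs.1
      have h2 : (s : ℝ) < 1 := hs.2
      constructor
      · change 1 / 2 < (hm true s : ℝ)
        rw [hm_val]; simp only [Bool.false_eq_true, if_false, if_true, zero_add]; linarith
      · change (hm true s : ℝ) < 1
        rw [hm_val]; simp only [Bool.false_eq_true, if_false, if_true, zero_add]; linarith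
    · rintro ⟨h1, h2⟩
      have h1' : 1 / 2 < (t : ℝ) := h1
      have h2' : (t : ℝ) < 1 := h2
      refine ⟨⟨2 * t - 1, by linarith, by linarith⟩, ⟨?_, ?_⟩, ?_⟩
      · change (0 : ℝ) < 2 * (t : ℝ) - 1; linarith
      · change 2 * (t : ℝ) - 1 < 1; linarith
      · apply Subtype.ext; rw [hm_val]; simp

theorem hset_open (b : Bool) : IsOpen (hset b) := by
  cases b <;> simp only [hset, Bool.false_eq_true, if_false, if_true] <;> exact isOpen_Ioo

theorem half_pos : (0 : I) < half := by
  change (0 : ℝ) < 1 / 2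
  norm_num

theorem half_lt : half < (1 : I) := by
  change (1 / 2 : ℝ) < 1
  norm_num

theorem hset_sub (b : Bool) : hset b ⊆ Ioo 0 1 := by
  cases b
  · simp only [hset, Bool.false_eq_true, if_false]
    exact fun t ht => ⟨ht.1, ht.2.trans half_lt⟩
  · simp only [hset, if_true]
    exact fun t ht => ⟨half_pos.trans ht.1, ht.2⟩

theorem hset_disj {b b' : Bool} (h : b ≠ b') : Disjoint (hset b) (hset b') := by
  rw [Set.disjoint_left]
  intro t h1 h2
  cases b <;> cases b'
  · exact h rfl
  · simp only [hset, Bool.false_eq_true, if_false, if_true] at h1 h2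
    exact lt_asymm h1.2 h2.1
  · simp only [hset, Bool.false_eq_true, if_false, if_true] at h1 h2
    exact lt_asymm h1.1 h2.2
  · exact h rfl

theorem hm_mem (b : Bool) (t : I) : hm b t ∈ Ioo (0 : I) 1 ∨ (b = false ∧ t = 0) ∨
    (b = true ∧ t = 1) := by
  have ht0 := t.2.1
  have ht1 := t.2.2
  cases b
  · rcases eq_or_lt_of_le ht0 with h | h
    · right; left
      exact ⟨rfl, Subtype.ext h.symm⟩
    · left
      constructor
      · change (0 : ℝ) < (hm false t : ℝ)
        rw [hm_val]; simp only [Bool.false_eq_true, if_false, if_true, zero_add]; linarith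
      · change (hm false t : ℝ) < 1
        rw [hm_val]; simp only [Bool.false_eq_true, if_false, if_true, zero_add]; linarith
  · rcases eq_or_lt_of_le ht1 with h | h
    · right; right
      exact ⟨rfl, Subtype.ext h⟩
    · left
      constructor
      · change (0 : ℝ) < (hm true t : ℝ)
        rw [hm_val]; simp only [Bool.false_eq_true, if_false, if_true, zero_add]; linarith
      · change (hm true t : ℝ) < 1
        rw [hm_val]; simp only [Bool.false_eq_true, if_false, if_true, zero_add]; linarith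

theorem even_card {α : Type*} (Cf Ct D : Set α) (hf : Cf.Finite) (ht : Ct.Finite)
    (hD : D = (Cf \ Ct) ∪ (Ct \ Cf)) (h : Even D.ncard) : Even (Cf.ncard + Ct.ncard) := by
  have h1 := Set.ncard_inter_add_ncard_sdiff_eq_ncard Cf Ct hf
  have h2 := Set.ncard_inter_add_ncard_sdiff_eq_ncard Ct Cf ht
  have h3 : D.ncard = (Cf \ Ct).ncard + (Ct \ Cf).ncard := by
    rw [hD, Set.ncard_union_eq _ hf.sdiff ht.sdiff]
    rw [Set.disjoint_left]
    rintro x ⟨_, hx⟩ ⟨hx', _⟩
    exact hx hx'
  rw [Set.inter_comm] at h2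
  obtain ⟨k, hk⟩ := h
  refine ⟨k + (Cf ∩ Ct).ncard, ?_⟩
  omega

theorem xsys (hF1 : Free1Stmt X) : XSysStmt X := by
  intro hdisj hcov hEC
  have hdata := fun e : {e : Set X // IsEdge e} => edge_data hF1 e.2.1
  choose Φ h0 h1 hcl himg hinj hopen hE01 hE10 huniq using hdata
  have hin : ∀ (e : {e : Set X // IsEdge e}) (t : I), t ∈ Ioo (0 : I) 1 → Φ e t ∈ e.1 := by
    intro e t ht
    have : Φ e t ∈ Φ e '' Ioo 0 1 := ⟨t, ht, rfl⟩
    rwa [himg] at this
  have hhalf : half ∈ Ioo (0 : I) 1 := ⟨half_pos, half_lt⟩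
  have hfimg : ∀ i : {e : Set X // IsEdge e} × Bool,
      ((Φ i.1).comp (hm i.2)) '' Ioo 0 1 = Φ i.1 '' hset i.2 := by
    intro i
    rw [ContinuousMap.coe_comp, image_comp, hm_image]
  have hfinj : ∀ i : {e : Set X // IsEdge e} × Bool,
      Function.Injective ((Φ i.1).comp (hm i.2)) := by
    rintro ⟨e, b⟩ s t hst
    simp only [ContinuousMap.comp_apply] at hst
    apply hm_inj b
    have key : ∀ s t : I, Φ e (hm b s) = Φ e (hm b t) → hm b s ∈ Ioo (0 : I) 1 →
        hm b t ∈ Ioo (0 : I) 1 := by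
      intro s t hst hs
      have hs' := hin e _ hs
      rw [hst] at hs'
      rcases hm_mem b t with h | ⟨rfl, rfl⟩ | ⟨rfl, rfl⟩
      · exact h
      · rw [hm_f0] at hs'
        exact absurd hs' (h0 e)
      · rw [hm_t1] at hs'
        exact absurd hs' (h1 e)
    rcases hm_mem b s with h | ⟨rfl, rfl⟩ | ⟨rfl, rfl⟩
    · exact hinj e h (key s t hst h) hst
    · rcases hm_mem false t with h | ⟨_, rfl⟩ | ⟨hh, _⟩
      · exact hinj e (key t 0 hst.symm h) h hst
      · rfl
      · exact absurd hh (by simp)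
    · rcases hm_mem true t with h | ⟨hh, _⟩ | ⟨_, rfl⟩
      · exact hinj e (key t 1 hst.symm h) h hst
      · exact absurd hh (by simp)
      · rfl
  have hopn : ∀ i : {e : Set X // IsEdge e} × Bool,
      IsOpen (((Φ i.1).comp (hm i.2)) '' Ioo 0 1) := by
    intro i
    rw [hfimg]
    exact hopen i.1 _ (hset_open _) (hset_sub _)
  have hdj : ∀ i j : {e : Set X // IsEdge e} × Bool, i ≠ j →
      Disjoint (((Φ i.1).comp (hm i.2)) '' Ioo 0 1) (((Φ j.1).comp (hm j.2)) '' Ioo 0 1) := by
    rintro ⟨e, b⟩ ⟨e', b'⟩ hij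
    rw [hfimg, hfimg]
    rw [Set.disjoint_left]
    rintro z ⟨s, hs, rfl⟩ ⟨t, ht, hst⟩
    have hs1 := hset_sub b hs
    have ht1 := hset_sub b' ht
    have hz1 : Φ e s ∈ e.1 := hin e s hs1
    have hz2 : Φ e s ∈ e'.1 := by
      have := hin e' t ht1
      change Φ e' t = Φ e s at hst
      rwa [hst] at this
    have hee : e = e' := by
      by_contra hne
      exact Set.disjoint_left.1 (hdisj e.1 e'.1 e.2 e'.2 (fun h => hne (Subtype.ext h))) hz1 hz2
    subst hee
    have hst' : t = s := hinj e ht1 hs1 hst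
    subst hst'
    have hbb : b ≠ b' := fun h => hij (by rw [h])
    exact Set.disjoint_left.1 (hset_disj hbb) hs ht
  refine ⟨{e : Set X // IsEdge e} × Bool, ⟨fun i => (Φ i.1).comp (hm i.2), hfinj, hopn, hdj⟩,
    ?_, ?_⟩
  · -- even cuts
    intro K hK
    obtain ⟨hKG, hKc, hKc'⟩ := hK
    set 𝓔 : EdgeSys X ({e : Set X // IsEdge e} × Bool) :=
      ⟨fun i => (Φ i.1).comp (hm i.2), hfinj, hopn, hdj⟩ with h𝓔
    by_cases hfin : (𝓔.cross K).Finite
    swap
    · rw [Set.Infinite.ncard hfin]
      exact Even.zero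
    have hφf0 : ∀ e, 𝓔.φ (e, false) 0 = Φ e 0 := fun e => congrArg (Φ e) hm_f0
    have hφf1 : ∀ e, 𝓔.φ (e, false) 1 = Φ e half := fun e => congrArg (Φ e) hm_f1
    have hφt0 : ∀ e, 𝓔.φ (e, true) 0 = Φ e half := fun e => congrArg (Φ e) hm_t0
    have hφt1 : ∀ e, 𝓔.φ (e, true) 1 = Φ e 1 := fun e => congrArg (Φ e) hm_t1
    set Cf : Set {e : Set X // IsEdge e} := {e | (e, false) ∈ 𝓔.cross K} with hCf
    set Ct : Set {e : Set X // IsEdge e} := {e | (e, true) ∈ 𝓔.cross K} with hCt
    set D : Set {e : Set X // IsEdge e} := {e | ¬ (Φ e 0 ∈ K ↔ Φ e 1 ∈ K)} with hD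
    have hCfm : ∀ e, e ∈ Cf ↔ ¬ (Φ e 0 ∈ K ↔ Φ e half ∈ K) := by
      intro e
      change ¬ (𝓔.φ (e, false) 0 ∈ K ↔ 𝓔.φ (e, false) 1 ∈ K) ↔ _
      rw [hφf0, hφf1]
    have hCtm : ∀ e, e ∈ Ct ↔ ¬ (Φ e half ∈ K ↔ Φ e 1 ∈ K) := by
      intro e
      change ¬ (𝓔.φ (e, true) 0 ∈ K ↔ 𝓔.φ (e, true) 1 ∈ K) ↔ _
      rw [hφt0, hφt1]
    have hffin : Cf.Finite := hfin.preimage (fun a _ b _ h => congrArg Prod.fst h)
    have htfin : Ct.Finite := hfin.preimage (fun a _ b _ h => congrArg Prod.fst h)
    have hcr : 𝓔.cross K = (fun e => (e, false)) '' Cf ∪ (fun e => (e, true)) '' Ct := by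
      ext ⟨e, b⟩
      cases b
      · constructor
        · intro h
          exact Or.inl ⟨e, h, rfl⟩
        · rintro (⟨e', h, h'⟩ | ⟨e', _, h'⟩)
          · have : e' = e := congrArg Prod.fst h'
            rw [← this]
            exact h
          · exact absurd (congrArg Prod.snd h') (by simp)
      · constructor
        · intro h
          exact Or.inr ⟨e, h, rfl⟩
        · rintro (⟨e', _, h'⟩ | ⟨e', h, h'⟩)
          · exact absurd (congrArg Prod.snd h') (by simp)
          · have : e' = e := congrArg Prod.fst h'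
            rw [← this]
            exact h
    have hcard : (𝓔.cross K).ncard = Cf.ncard + Ct.ncard := by
      rw [hcr, Set.ncard_union_eq _ (hffin.image _) (htfin.image _),
        Set.ncard_image_of_injective _ (fun a b h => congrArg Prod.fst h),
        Set.ncard_image_of_injective _ (fun a b h => congrArg Prod.fst h)]
      rw [Set.disjoint_left]
      rintro _ ⟨e, _, rfl⟩ ⟨e', _, h⟩
      exact absurd (congrArg Prod.snd h) (by simp)
    have hDeq : D = (Cf \ Ct) ∪ (Ct \ Cf) := by
      ext e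
      rw [mem_union, mem_sdiff, mem_sdiff, hCfm, hCtm]
      change ¬ (Φ e 0 ∈ K ↔ Φ e 1 ∈ K) ↔ _
      tauto
    rw [hcard]
    refine even_card Cf Ct D hffin htfin hDeq ?_
    -- compare with the cut of the ground space
    have hgsub : ground X ⊆ 𝓔.G := by
      intro x hx hx'
      apply hx
      obtain ⟨i, hi⟩ := mem_iUnion.1 hx'
      have hi' : x ∈ Φ i.1 '' hset i.2 := by
        rw [← hfimg]
        exact hi
      obtain ⟨t, ht, rfl⟩ := hi'
      exact ⟨i.1.1, i.1.2, hin i.1 t (hset_sub _ ht)⟩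
    have hgcl : IsClosed (ground X) :=
      (isOpen_sUnion (fun e (he : IsEdge e) => he.1.1)).isClosed_compl
    have hA : IsClosed (K ∩ ground X) := hKc.inter hgcl
    have hB : IsClosed (ground X \ K) := by
      have : ground X \ K = ground X ∩ (𝓔.G \ K) := by
        ext x
        constructor
        · rintro ⟨h1, h2⟩
          exact ⟨h1, hgsub h1, h2⟩
        · rintro ⟨h1, _, h2⟩
          exact ⟨h1, h2⟩
      rw [this]
      exact hgcl.inter hKc'
    have hev := hEC (K ∩ ground X) (ground X \ K) hA hB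
      (by
        rw [Set.disjoint_left]
        rintro x ⟨h1, _⟩ ⟨_, h2⟩
        exact h2 h1)
      (by
        ext x
        constructor
        · rintro (⟨_, h⟩ | ⟨h, _⟩) <;> exact h
        · intro h
          by_cases hx : x ∈ K
          · exact Or.inl ⟨hx, h⟩
          · exact Or.inr ⟨h, hx⟩)
    have hend : ∀ (e : {e : Set X // IsEdge e}) (x : X), x ∈ closure e.1 → x ∉ e.1 →
        x ∈ ground X := by
      intro e x hx hxe
      rintro ⟨e', he', hxe'⟩
      obtain ⟨y, hy1, hy2⟩ := mem_closure_iff.1 hx e' he'.1.1 hxe'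
      have : e.1 = e' := by
        by_contra hne
        exact Set.disjoint_left.1 (hdisj e.1 e' e.2 he' hne) hy2 hy1
      rw [← this] at hxe'
      exact hxe hxe'
    have hg0 : ∀ e, Φ e 0 ∈ ground X := fun e => hend e _ (by
      rw [hcl]; exact Or.inr (Or.inl rfl)) (h0 e)
    have hg1 : ∀ e, Φ e 1 ∈ ground X := fun e => hend e _ (by
      rw [hcl]; exact Or.inr (Or.inr rfl)) (h1 e)
    have hcut : edgeCut (K ∩ ground X) (ground X \ K) = Subtype.val '' D := by
      ext e
      constructor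
      · rintro ⟨he, a, ⟨haK, _⟩, b, ⟨_, hbK⟩, hab⟩
        refine ⟨⟨e, he⟩, ?_, rfl⟩
        have := huniq ⟨e, he⟩ a b hab
        change ¬ (Φ ⟨e, he⟩ 0 ∈ K ↔ Φ ⟨e, he⟩ 1 ∈ K)
        rcases Set.pair_eq_pair_iff.1 this with ⟨ha, hb⟩ | ⟨ha, hb⟩
        · rw [← ha, ← hb]
          exact fun h => hbK (h.1 haK)
        · rw [← ha, ← hb]
          exact fun h => hbK (h.2 haK)
      · rintro ⟨e, he, rfl⟩
        refine ⟨e.2, ?_⟩
        by_cases hK0 : Φ e 0 ∈ K
        · have hK1 : Φ e 1 ∉ K := fun h => he ⟨fun _ => h, fun _ => hK0⟩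
          exact ⟨_, ⟨hK0, hg0 e⟩, _, ⟨hg1 e, hK1⟩, hE01 e⟩
        · have hK1 : Φ e 1 ∈ K := by
            by_contra h
            exact he ⟨fun h' => absurd h' hK0, fun h' => absurd h' h⟩
          exact ⟨_, ⟨hK1, hg1 e⟩, _, ⟨hg0 e, hK0⟩, hE10 e⟩
    rw [hcut, Set.ncard_image_of_injective _ Subtype.val_injective] at hev
    exact hev
  · -- no free arcs elsewhere
    intro e he heo
    refine ⟨fun ψ => ?_⟩
    obtain ⟨e', he', hee'⟩ := hcov e ⟨heo, ⟨ψ⟩⟩
    have hz := (ψ.symm ⟨1 / 2, by norm_num, by norm_num⟩).2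
    set z : X := ((ψ.symm ⟨1 / 2, by norm_num, by norm_num⟩ : e) : X) with hzdef
    apply he hz
    have hze' : z ∈ e' := hee' hz
    have hze'' : z ∈ Φ ⟨e', he'⟩ '' Ioo 0 1 := by rw [himg]; exact hze'
    obtain ⟨t, ht, htz⟩ := hze''
    have hcl2 : t ∈ closure (hset false ∪ hset true) := by
      have h1 : closure (hset false) = Icc 0 half := by
        simp only [hset, Bool.false_eq_true, if_false]
        exact closure_Ioo half_pos.ne
      have h2 : closure (hset true) = Icc half 1 := by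
        simp only [hset, if_true]
        exact closure_Ioo half_lt.ne
      rw [closure_union, h1, h2]
      rcases le_total t half with h | h
      · exact Or.inl ⟨ht.1.le, h⟩
      · exact Or.inr ⟨h, ht.2.le⟩
    rw [← htz]
    refine closure_mono ?_ (mem_closure_image (Φ ⟨e', he'⟩).continuous.continuousAt hcl2)
    rintro _ ⟨s, hs, rfl⟩
    rcases hs with hs | hs
    · refine mem_iUnion.2 ⟨(⟨e', he'⟩, false), ?_⟩
      change _ ∈ ((Φ ⟨e', he'⟩).comp (hm false)) '' Ioo 0 1
      rw [hfimg (⟨e', he'⟩, false)]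
      exact ⟨s, hs, rfl⟩
    · refine mem_iUnion.2 ⟨(⟨e', he'⟩, true), ?_⟩
      change _ ∈ ((Φ ⟨e', he'⟩).comp (hm true)) '' Ioo 0 1
      rw [hfimg (⟨e', he'⟩, true)]
      exact ⟨s, hs, rfl⟩

end Pool.Agent.EU.H8
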