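import Pool.Agent.Helper17_EU.StmtsF
import Pool.Agent.Helper17_EU.WBasics

/-! # Towers which agree below a level -/

open Set Metric Topology unitInterval

noncomputable section

namespace Pool.Agent.EU.H8

open Pool.Agent.EU EdgeSys

universe u v

variable {X : Type u} [MetricSpace X] {ι : Type v} {𝓔 : EdgeSys X ι}

/-- `T'` agrees with `T` below level `m` -/
def Agree (T T' : 𝓔.Tower) (m : ℕ) : Prop :=
  ∀ n < m, T'.arc n = T.arc n ∧ T'.U n = T.U n ∧ T'.FA n = T.FA n ∧ T'.DV n = T.DV n ∧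
    T'.DS n = T.DS n ∧ T'.PK n = T.PK n

variable {T T' : 𝓔.Tower} {m : ℕ}

theorem Agree.arc (h : Agree T T' m) {n : ℕ} (hn : n < m) : T'.arc n = T.arc n := (h n hn).1
theorem Agree.U (h : Agree T T' m) {n : ℕ} (hn : n < m) : T'.U n = T.U n := (h n hn).2.1
theorem Agree.FA (h : Agree T T' m) {n : ℕ} (hn : n < m) : T'.FA n = T.FA n := (h n hn).2.2.1
theorem Agree.DV (h : Agree T T' m) {n : ℕ} (hn : n < m) : T'.DV n = T.DV n := (h n hn).2.2.2.1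
theorem Agree.DS (h : Agree T T' m) {n : ℕ} (hn : n < m) : T'.DS n = T.DS n := (h n hn).2.2.2.2.1
theorem Agree.PK (h : Agree T T' m) {n : ℕ} (hn : n < m) : T'.PK n = T.PK n := (h n hn).2.2.2.2.2

theorem Agree.ids (h : Agree T T' m) {n : ℕ} (hn : n < m) : T'.ids n = T.ids n := by
  simp only [Tower.ids, h.FA hn, h.DV hn, h.DS hn]

theorem Agree.arcs (h : Agree T T' m) {n : ℕ} (hn : n < m) : T'.arcs n = T.arcs n := by
  simp only [Tower.arcs, h.ids hn, h.arc hn]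

theorem Agree.S (h : Agree T T' m) {n : ℕ} (hn : n < m) : T'.S n = T.S n := by
  ext i
  simp only [Tower.S, mem_ofPred_eq]
  constructor
  · rintro ⟨l, hl, hi⟩
    exact ⟨l, hl, by rwa [h.arcs (lt_of_le_of_lt hl hn)] at hi⟩
  · rintro ⟨l, hl, hi⟩
    exact ⟨l, hl, by rwa [h.arcs (lt_of_le_of_lt hl hn)]⟩

theorem Agree.V (h : Agree T T' m) {n : ℕ} (hn : n < m) : T'.V n = T.V n := by
  ext x
  simp only [Tower.V, Finset.mem_biUnion, Finset.mem_Icc]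
  constructor
  · rintro ⟨l, hl, hx⟩
    exact ⟨l, hl, by rwa [h.U (lt_of_le_of_lt hl.2 hn)] at hx⟩
  · rintro ⟨l, hl, hx⟩
    exact ⟨l, hl, by rwa [h.U (lt_of_le_of_lt hl.2 hn)]⟩

theorem mem_V {T : 𝓔.Tower} {n : ℕ} {x : X} : x ∈ T.V n ↔ ∃ l, 1 ≤ l ∧ l ≤ n ∧ x ∈ T.U l := by
  simp only [Tower.V, Finset.mem_biUnion, Finset.mem_Icc]
  constructor
  · rintro ⟨l, hl, hx⟩
    exact ⟨l, hl.1, hl.2, hx⟩
  · rintro ⟨l, h1, h2, hx⟩
    exact ⟨l, ⟨h1, h2⟩, hx⟩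

theorem mem_P {T : 𝓔.Tower} {n : ℕ} {x : X} : x ∈ T.P n ↔ ∃ q ∈ T.PK n, q.1 = x := by
  simp only [Tower.P, List.mem_toFinset, List.mem_map]

theorem mem_U' {T : 𝓔.Tower} {n : ℕ} {x : X} : x ∈ T.U' n ↔ x ∈ T.U n ∧ x ∉ T.P n := by
  simp only [Tower.U', Finset.mem_filter]

theorem Agree.P (h : Agree T T' m) {n : ℕ} (hn : n < m) : T'.P n = T.P n := by
  unfold Tower.P
  rw [h.PK hn]

theorem Agree.U' (h : Agree T T' m) {n : ℕ} (hn : n < m) : T'.U' n = T.U' n := by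
  unfold Tower.U'
  rw [h.U hn, h.P hn]

theorem Agree.dA (h : Agree T T' m) {n : ℕ} (hn : n < m) (v : X) : T'.dA n v = T.dA n v := by
  unfold Tower.dA
  refine Finset.sum_congr rfl ?_
  intro l hl
  have hl' : l < m := lt_of_le_of_lt (Nat.lt_succ_iff.1 (Finset.mem_range.1 hl)) hn
  rw [h.FA hl', h.arc hl']

theorem Agree.marks (h : Agree T T' m) {n : ℕ} (hn : n < m) : T'.marks n = T.marks n := by
  simp only [Tower.marks, h.DV hn, h.DS hn]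

theorem Agree.slots (h : Agree T T' m) {n : ℕ} (hn : n < m) : T'.slots n = T.slots n := by
  simp only [Tower.slots, h.PK hn, h.DS hn]

theorem Agree.isHost (h : Agree T T' m) {n : ℕ} (hn : n ≤ m) (x : ℕ × ℕ) :
    T'.IsHost n x ↔ T.IsHost n x := by
  unfold Tower.IsHost
  constructor
  · rintro ⟨h1, h2, h3⟩
    exact ⟨h1, h2, by rwa [h.ids (lt_of_lt_of_le h2 hn)] at h3⟩
  · rintro ⟨h1, h2, h3⟩
    exact ⟨h1, h2, by rwa [h.ids (lt_of_lt_of_le h2 hn)]⟩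

theorem Agree.decoOK (h : Agree T T' m) (hκ : T'.κ = T.κ) {n : ℕ} (hn : n < m) (M : Set X)
    (D : Deco X ι) : T'.DecoOK M n D ↔ T.DecoOK M n D := by
  unfold Tower.DecoOK
  rw [h.arc hn, hκ]

theorem Agree.levelA (h : Agree T T' m) (hκ : T'.κ = T.κ) (hρ : T'.ρ = T.ρ) (hr : T'.r = T.r)
    {n : ℕ} (hn2 : 2 ≤ n) (hn : n < m) (hA : T.LevelA n) : T'.LevelA n := by
  have hn1 : n - 1 < m := by omega
  refine ⟨?_, ?_, ?_, ?_, ?_, ?_, ?_, ?_, ?_, ?_, ?_, ?_⟩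
  · rw [h.U hn]; exact hA.UG
  · rw [h.U hn, h.V hn1]; exact hA.Udisj
  · rw [h.U hn, h.P hn]; exact hA.PU
  · rw [h.PK hn]; exact hA.Pnodup
  · rw [h.PK hn]
    intro p hp
    obtain ⟨h1, h2⟩ := hA.Phost p hp
    refine ⟨(h.isHost hn.le _).2 h1, ?_⟩
    rw [h.arc (lt_trans h1.2.1 hn)]
    exact h2
  · rw [h.P hn, h.V hn1, h.S hn1]; exact hA.Piso
  · rw [h.V hn1, h.S hn1, hr]; exact hA.big
  · rw [hκ, hρ]; exact hA.stage
  · rw [hκ, hρ]; exact hA.ρκ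
  · rw [hκ]; exact hA.κpos
  · rw [hr]; exact hA.rpos
  · rw [hr, hρ]; exact hA.rρ

theorem Agree.levelB (h : Agree T T' m) (hκ : T'.κ = T.κ) (hρ : T'.ρ = T.ρ) (hr : T'.r = T.r)
    {M : Set X} {n : ℕ} (hn2 : 2 ≤ n) (hn : n < m) (hB : T.LevelB M n) : T'.LevelB M n := by
  have hn1 : n - 1 < m := by omega
  refine ⟨?_, ?_, ?_, ?_, ?_, ?_, ?_, ?_, ?_, ?_, ?_, ?_, ?_, ?_, ?_⟩
  · rw [h.ids hn]; exact hB.idsNodup
  · rw [h.ids hn, h.arc hn, h.S hn1]; exact hB.disjLow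
  · rw [h.ids hn, h.arc hn]; exact hB.disjSame
  · rw [h.ids hn, h.arc hn, h.S hn1]; exact hB.rangeY
  · rw [h.FA hn, h.arc hn, h.V hn, h.U' hn]; exact hB.FAends
  · rw [h.FA hn, h.arc hn, hr]; exact hB.FAsmall
  · rw [h.FA hn, h.arc hn, h.U' hn, h.V hn1, h.P hn, hr]; exact hB.rooted
  · rw [h.DV hn, h.U hn1]
    intro D hD
    obtain ⟨h1, h2⟩ := hB.DVok D hD
    exact ⟨(h.decoOK hκ hn M D).2 h1, h2⟩
  · rw [h.DS hn]
    intro D hD
    obtain ⟨h1, h2, h3⟩ := hB.DSok D hD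
    refine ⟨(h.decoOK hκ hn M D.1).2 h1, (h.isHost hn.le _).2 h2, ?_⟩
    rw [h.arc (lt_trans h2.2.1 hn)]
    exact h3
  · rw [hκ, hρ]; exact hB.κρ
  · rw [hκ]; exact hB.κκ
  · rw [hκ]; exact hB.κpos'
  · rw [hκ, h.V hn1]; exact hB.κd
  · rw [h.marks hn]; exact hB.marksNodup
  · rw [h.marks hn]
    intro l hl k hk
    rw [h.marks (lt_trans hl hn)]
    exact hB.marksLow l hl k hk

end Pool.Agent.EU.H8
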