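import Pool.Agent.Helper8_EU.Lib

/-! # HK: auxiliary lemmas -/

open Set Metric Topology unitInterval

noncomputable section

namespace Pool.Agent.EU.H8

open Pool.Agent.EU EdgeSys

universe u v

variable {X : Type u} [MetricSpace X] {ι : Type v} {𝓔 : EdgeSys X ι}

theorem basic_mono {E : Set (ι ⊕ ℕ)} {κ a κ' a' : ℝ} {w : List (Step X ι)}
    (h : 𝓔.Basic E κ a w) (hκ : κ ≤ κ') (ha : a ≤ a') : 𝓔.Basic E κ' a' w := by
  intro x y hxy
  obtain ⟨h1, h2, h3, h4⟩ := h x y hxy
  refine ⟨fun hi => (h1 hi).trans ha, ?_, ?_, ?_⟩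
  · intro w1 w2 hw hi
    exact (h2 w1 w2 hw hi).trans (closedBall_subset_closedBall hκ)
  · intro w1 w2 hw hi
    exact (h3 w1 w2 hw hi).trans (closedBall_subset_closedBall hκ)
  · intro w1 w2 w3 hw hi y hy z hz
    have := h4 w1 w2 w3 hw hi y hy z hz
    linarith

theorem basic_of {E : Set (ι ⊕ ℕ)} {κ : ℝ} {w : List (Step X ι)} (hκ : 0 ≤ κ)
    (hs : Small κ (𝓔.supW w))
    (h : ∀ x y, 𝓔.IsW x w y → w ≠ [] → (∃ i ∈ items w, i ∈ E) ∨ x = y) :
    𝓔.Basic E κ 0 w := by
  intro x y hxy
  refine ⟨?_, ?_, ?_, ?_⟩
  · intro hi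
    rcases eq_or_ne w [] with rfl | hw
    · rw [IsW.nil_iff.1 hxy, dist_self]
    · rcases h x y hxy hw with ⟨i, hi1, hi2⟩ | rfl
      · exact absurd hi2 (hi i hi1)
      · rw [dist_self]
  · intro w1 w2 hw _ z hz
    have hne : w ≠ [] := by
      rintro rfl
      have : w1 = [] := by simpa using (List.append_eq_nil_iff.1 hw.symm).1
      rw [this] at hz
      simp at hz
    have hx := hxy.start_mem hne
    have hz' : z ∈ 𝓔.supW w := by rw [hw, supW_append]; exact Or.inl hz
    exact mem_closedBall.2 (hs z hz' x hx)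
  · intro w1 w2 hw _ z hz
    have hne : w ≠ [] := by
      rintro rfl
      have : w2 = [] := by simpa using (List.append_eq_nil_iff.1 hw.symm).2
      rw [this] at hz
      simp at hz
    have hx := hxy.end_mem hne
    have hz' : z ∈ 𝓔.supW w := by rw [hw, supW_append]; exact Or.inr hz
    exact mem_closedBall.2 (hs z hz' y hx)
  · intro w1 w2 w3 hw _ z hz z' hz'
    have h1 : z ∈ 𝓔.supW w := by rw [hw, supW_append, supW_append]; exact Or.inl (Or.inr hz)
    have h2 : z' ∈ 𝓔.supW w := by rw [hw, supW_append, supW_append]; exact Or.inl (Or.inr hz')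
    have := hs z h1 z' h2
    linarith

theorem basic_single {E : Set (ι ⊕ ℕ)} {i : ι} {b : Bool} (hi : (Sum.inl i : ι ⊕ ℕ) ∈ E) :
    𝓔.Basic E 0 0 [Step.edge i b] := by
  have hmem : ∀ w1 w2 w3 : List (Step X ι), [Step.edge i b] = w1 ++ w2 ++ w3 →
      (∀ x ∈ items w2, x ∉ E) → w2 = [] := by
    intro w1 w2 w3 hw hx
    by_contra hne
    obtain ⟨s, hs⟩ := List.exists_mem_of_ne_nil _ hne
    have hs' : s ∈ ([Step.edge i b] : List (Step X ι)) := by
      rw [hw]
      exact List.mem_append_left _ (List.mem_append_right _ hs)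
    rw [List.mem_singleton] at hs'
    subst hs'
    exact hx _ (mem_items_inl.2 ⟨b, hs⟩) hi
  intro x y hxy
  refine ⟨?_, ?_, ?_, ?_⟩
  · intro h
    exact absurd hi (h _ (mem_items_inl.2 ⟨b, List.mem_singleton_self _⟩))
  · intro w1 w2 hw hx
    rw [hmem [] w1 w2 (by simpa using hw) hx]
    simp
  · intro w1 w2 hw hx
    rw [hmem w1 w2 [] (by simpa using hw) hx]
    simp
  · intro w1 w2 w3 hw hx
    rw [hmem w1 w2 w3 hw hx]
    intro y hy
    simp at hy

theorem small_pair {x : X} : Small 0 ({x} : Set X) := by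
  intro y hy z hz
  rw [mem_singleton_iff.1 hy, mem_singleton_iff.1 hz, dist_self]

theorem basic_mark {E : Set (ι ⊕ ℕ)} {k : ℕ} {x : X} :
    𝓔.Basic E 0 0 [Step.mark k x] := by
  refine basic_of le_rfl ?_ ?_
  · simpa [supp] using (small_pair (x := x))
  · intro y z h _
    right
    rw [IsW.cons_iff, IsW.nil_iff] at h
    rw [h.1, ← h.2]
    simp [src, tgt]

theorem basic_closed {E : Set (ι ⊕ ℕ)} {κ : ℝ} {w : List (Step X ι)} {x0 : X} (hκ : 0 ≤ κ)
    (hw : 𝓔.IsW x0 w x0) (hs : 𝓔.supW w ⊆ closedBall x0 κ) : 𝓔.Basic E (2 * κ) 0 w := by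
  refine basic_of (by linarith) (Small.of_closedBall hs) ?_
  intro x y hxy hne
  right
  have h1 := IsW.start_unique hne hxy hw
  subst h1
  exact (IsW.end_unique hxy hw).symm

/-! ## number of slots -/

variable {T : 𝓔.Tower} {m : ℕ} {SW : ℕ → List (List (Step X ι))}

theorem slotsOn_filter_length (n j k : ℕ) :
    ((T.slotsOn m SW n j).filter (fun p => p.2.1 < k)).length ≤
      ∑ l ∈ Finset.range k, (T.slots l).length := by
  classical
  have key : ∀ r : ℕ, (((List.range r).flatMap (fun l =>
      ((T.slots l).zip (SW l)).filterMap (fun p =>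
        if n < l ∧ p.1.1 = (n, j) then some (p.1.2, l, p.2) else none))).filter
          (fun p => decide (p.2.1 < k))).length ≤ ∑ l ∈ Finset.range (min r k), (T.slots l).length := by
    intro r
    induction r with
    | zero => simp
    | succ r ih =>
      rw [List.range_succ, List.flatMap_append, List.filter_append, List.length_append,
        List.flatMap_cons, List.flatMap_nil, List.append_nil]
      rcases lt_or_ge r k with hrk | hrk
      · have e : min (r + 1) k = min r k + 1 := by omega
        have e' : min r k = r := by omega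
        rw [e, Finset.sum_range_succ]
        refine add_le_add ih ?_
        rw [e']
        refine (List.length_filter_le _ _).trans ?_
        refine (List.length_filterMap_le _ _).trans ?_
        rw [List.length_zip]
        exact min_le_left _ _
      · have e : min (r + 1) k = min r k := by omega
        rw [e]
        have h0 : (List.filter (fun p : I × ℕ × List (Step X ι) => decide (p.2.1 < k))
            (((T.slots r).zip (SW r)).filterMap (fun p =>
              if n < r ∧ p.1.1 = (n, j) then some (p.1.2, r, p.2) else none))).length = 0 := by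
          rw [List.length_eq_zero_iff, List.filter_eq_nil_iff]
          intro p hp
          obtain ⟨q, _, hq⟩ := List.mem_filterMap.1 hp
          split_ifs at hq with hc
          · have : p = (q.1.2, r, q.2) := by simpa using hq.symm
            rw [this]
            simpa using hrk
        rw [h0, add_zero]
        exact ih
  refine le_trans ?_ ((key (m + 1)).trans ?_)
  · unfold Tower.slotsOn
    exact le_rfl
  · exact Finset.sum_le_sum_of_subset (Finset.range_subset_range.2 (min_le_right _ _))

end Pool.Agent.EU.H8
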