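import Pool.Agent.Helper8_EU.HKa

/-! # HK: the pieces -/

open Set Metric Topology unitInterval

noncomputable section

namespace Pool.Agent.EU.H8

open Pool.Agent.EU EdgeSys

universe u v

variable {X : Type u} [MetricSpace X] {ι : Type v} {𝓔 : EdgeSys X ι}

variable {T : 𝓔.Tower} {M : Set X} {m : ℕ} {η : ℝ} {F : Set ι} {C0 : Multiset (TW X ι)}
  {bw : Tower.BW X ι} {SW : ℕ → List (List (Step X ι))}

theorem deco_mark {n : ℕ} {D : Deco X ι} (hD : T.DecoOK M n D) {j : ℕ}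
    (hj : D.lm = Sum.inr j) : D.mrk = some j := by
  obtain ⟨_, _, _, _, _, h6, h7⟩ := hD
  cases hm : D.mrk with
  | none =>
    obtain ⟨i, _, hi⟩ := h7 hm
    rw [hj] at hi
    exact absurd hi (by simp)
  | some k =>
    have := (h6 k hm).1
    rw [hj] at this
    rw [Sum.inr.inj this]

theorem marks_of_DV {n : ℕ} {D : Deco X ι} (hDV : D ∈ T.DV n) {j : ℕ} (hj : D.mrk = some j) :
    (j, D.pt) ∈ T.marks n := by
  unfold Tower.marks
  refine List.mem_append_left _ (List.mem_filterMap.2 ⟨D, hDV, ?_⟩)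
  rw [hj]
  rfl

theorem marks_of_DS {n : ℕ} {D : Deco X ι × (ℕ × ℕ) × I} (hDS : D ∈ T.DS n) {j : ℕ}
    (hj : D.1.mrk = some j) : (j, D.1.pt) ∈ T.marks n := by
  unfold Tower.marks
  refine List.mem_append_right _ (List.mem_filterMap.2 ⟨D, hDS, ?_⟩)
  rw [hj]
  rfl

/-- a decoration in a slot of level `l` is one of the inserted closed walks -/
theorem slot_of_DS {l n j : ℕ} (hl : n < l) (hlm : l ≤ m) {pw : List (List (Step X ι))}
    (hpw : SW l = (T.DS l).map (fun D => T.dcont m bw SW l D.1) ++ pw) {D : Deco X ι} {τ : I}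
    (hD : (D, (n, j), τ) ∈ T.DS l) :
    (τ, l, T.dcont m bw SW l D) ∈ T.slotsOn m SW n j := by
  rw [mem_slotsOn]
  refine ⟨l, hl, hlm, (((n, j), τ), T.dcont m bw SW l D), ?_, rfl, rfl⟩
  rw [hpw]
  unfold Tower.slots
  rw [List.zip_append (by simp)]
  refine List.mem_append_left _ ?_
  rw [List.zip_map']
  exact List.mem_map.2 ⟨_, hD, rfl⟩

/-- the pieces of an arc -/
theorem Run.pieces (hCont : 𝓔.ContStmt) (R : Run T M m η F C0 bw SW) {k n j : ℕ}
    (hn2 : 2 ≤ n) (hnk : n < k) (hk : k ≤ m) (hj : j ∈ T.ids n) {E : Set (ι ⊕ ℕ)} {θ : ℝ}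
    (hθ : 0 ≤ θ) {Fk : Set ι} {Tk : Set I} (hFine : 𝓔.Fine (T.arc n j) Fk Tk θ)
    (hFk : Fk ⊆ F) (hFE : ∀ i ∈ Fk, Sum.inl i ∈ E)
    (hTk : ∀ τ ∈ Tk, ∃ p ∈ T.slotsOn m SW n j, p.1 = τ ∧ k ≤ p.2.1 ∧
      ∃ x ∈ items p.2.2, x ∈ E) :
    ∃ Rp : Multiset (List (Step X ι)),
      Asm (Rp + Multiset.ofList
        (((T.slotsOn m SW n j).filter (fun p => p.2.1 < k)).map (fun p => p.2.2)))
        {T.cont m bw SW n j} ∧
      Rp.card ≤ 1 + ∑ l ∈ Finset.range k, (T.slots l).length ∧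
      ∀ w ∈ Rp, 𝓔.Basic E (2 * T.κ k + θ) θ w := by
  unfold Tower.cont
  have hcnt := slotsOn_filter_length (T := T) (m := m) (SW := SW) n j k
  set L := T.slotsOn m SW n j with hL
  have hperm := fun dr => perm_slots (X := X) (ι := ι) L (dr := dr)
  have hsort := fun dr => sorted_slots (X := X) (ι := ι) L (dr := dr)
  obtain ⟨Rp, h1, h2, h3⟩ := hCont (T.arc n j) η F (bw n j) _ k (T.κ k) θ E Fk Tk
    (fun s t hst hs ht => R.hbw n (by omega) j hj s t hst hs ht)
    (hsort (fun a b => Classical.propDecidable _)) (by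
      intro p hp
      have hp' : p ∈ L := (hperm _).mem_iff.1 hp
      have := R.slot_ok (by omega : 1 ≤ n) hp'
      exact ⟨this.2.2.1, this.2.2.2.1⟩)
    (by
      intro p hp hkp
      have hp' : p ∈ L := (hperm _).mem_iff.1 hp
      have := R.slot_ok (by omega : 1 ≤ n) hp'
      exact this.2.2.2.2.trans (closedBall_subset_closedBall
        (R.kappa_anti (by omega) hkp this.2.1)))
    (R.kappa_pos (by omega) hk).le hθ hFine hFk hFE
    (by
      intro τ hτ
      obtain ⟨p, hp, h⟩ := hTk τ hτ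
      exact ⟨p, (hperm _).mem_iff.2 hp, h⟩)
  have hpf := (hperm (fun a b => Classical.propDecidable _)).filter
    (fun p => decide (p.2.1 < k))
  refine ⟨Rp, ?_, ?_, h3⟩
  · have := Multiset.coe_eq_coe.2 (hpf.map (fun p => p.2.2))
    rw [← this]
    exact h1
  · rw [hpf.length_eq] at h2
    omega

end Pool.Agent.EU.H8
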