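import Pool.Agent.Helper8_EU.Agree

/-! # Contents of arcs and decorations in a run -/

open Set Metric Topology unitInterval

noncomputable section

namespace Pool.Agent.EU.H8

open Pool.Agent.EU EdgeSys

universe u v

variable {X : Type u} [MetricSpace X] {ι : Type v} {𝓔 : EdgeSys X ι}

/-- all data of a run with bottom level `m` -/
structure Run (T : 𝓔.Tower) (M : Set X) (m : ℕ) (η : ℝ) (F : Set ι) (C0 : Multiset (TW X ι))
    (bw : Tower.BW X ι) (SW : ℕ → List (List (Step X ι))) : Prop where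
  hA : ∀ n, 2 ≤ n → n ≤ m → T.LevelA n
  hB : ∀ n, 2 ≤ n → n < m → T.LevelB M n
  hC : T.BottomOK m η F C0
  hbw : T.BWok m η F bw
  hSW : ∀ n, 2 ≤ n → n ≤ m → T.SWok SW n
  hη : 0 < η

variable {T : 𝓔.Tower} {M : Set X} {m : ℕ} {η : ℝ} {F : Set ι} {C0 : Multiset (TW X ι)}
  {bw : Tower.BW X ι} {SW : ℕ → List (List (Step X ι))}

theorem mem_slotsOn {n j : ℕ} {p : I × ℕ × List (Step X ι)} :
    p ∈ T.slotsOn m SW n j ↔ ∃ l, n < l ∧ l ≤ m ∧ ∃ q ∈ (T.slots l).zip (SW l),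
      q.1.1 = (n, j) ∧ p = (q.1.2, l, q.2) := by
  unfold Tower.slotsOn
  simp only [List.mem_flatMap, List.mem_range, List.mem_filterMap]
  constructor
  · rintro ⟨l, hl, q, hq, hif⟩
    split_ifs at hif with hc
    · refine ⟨l, hc.1, by omega, q, hq, hc.2, ?_⟩
      simpa using hif.symm
  · rintro ⟨l, h1, h2, q, hq, h3, rfl⟩
    exact ⟨l, by omega, q, hq, by rw [if_pos ⟨h1, h3⟩]⟩

theorem Run.kappa_pos (R : Run T M m η F C0 bw SW) {n : ℕ} (h2 : 2 ≤ n) (hm : n ≤ m) :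
    0 < T.κ n := (R.hA n h2 hm).κpos

theorem Run.kappa_anti (R : Run T M m η F C0 bw SW) {n l : ℕ} (h2 : 2 ≤ n) (hnl : n ≤ l)
    (hl : l ≤ m) : T.κ l ≤ T.κ n := by
  induction l, hnl using Nat.le_induction with
  | base => exact le_refl _
  | succ l hnl ih =>
    have h1 := (R.hB l (by omega) (by omega)).κκ
    have h3 := (R.hB l (by omega) (by omega)).κpos'
    have h2 := ih (by omega)
    linarith

theorem Run.host (R : Run T M m η F C0 bw SW) {l : ℕ} (h2 : 2 ≤ l) (hm : l ≤ m)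
    {h : (ℕ × ℕ) × I} (hh : h ∈ T.slots l) :
    T.IsHost l h.1 ∧ (T.arc h.1.1 h.1.2).f h.2 ∈ 𝓔.G := by
  unfold Tower.slots at hh
  rcases List.mem_append.1 hh with hh | hh
  · obtain ⟨D, hD, rfl⟩ := List.mem_map.1 hh
    rcases lt_or_eq_of_le hm with hlt | rfl
    · obtain ⟨h1, h2', h3⟩ := (R.hB l h2 hlt).DSok D hD
      refine ⟨h2', ?_⟩
      rw [h3]
      exact h1.2.2.2.1
    · rw [R.hC.noDS] at hD
      simp at hD
  · obtain ⟨q, hq, rfl⟩ := List.mem_map.1 hh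
    obtain ⟨h1, h2'⟩ := (R.hA l h2 hm).Phost q hq
    refine ⟨h1, ?_⟩
    rw [h2']
    exact (R.hA l h2 hm).UG _ ((R.hA l h2 hm).PU _ (mem_P.2 ⟨q, hq, rfl⟩))

theorem Run.slot_ok (R : Run T M m η F C0 bw SW) {n j : ℕ} (hn : 1 ≤ n)
    {p : I × ℕ × List (Step X ι)} (hp : p ∈ T.slotsOn m SW n j) :
    n < p.2.1 ∧ p.2.1 ≤ m ∧ (T.arc n j).f p.1 ∈ 𝓔.G ∧
      𝓔.IsW ((T.arc n j).f p.1) p.2.2 ((T.arc n j).f p.1) ∧
      𝓔.supW p.2.2 ⊆ closedBall ((T.arc n j).f p.1) (T.κ p.2.1) := by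
  obtain ⟨l, h1, h2, ⟨⟨hj, τ⟩, w⟩, hq, h3, rfl⟩ := mem_slotsOn.1 hp
  have hl2 : 2 ≤ l := by omega
  have hqs : (hj, τ) ∈ T.slots l := (List.of_mem_zip hq).1
  have hh := (R.host hl2 h2 hqs).2
  have hW := (List.forall₂_iff_zip.1 (R.hSW l hl2 h2)).2 hq
  simp only at h3
  subst h3
  exact ⟨h1, h2, hh, hW.1, hW.2⟩

/-- the relation used to sort slots -/
abbrev SR (X : Type u) (ι : Type v) (a b : I × ℕ × List (Step X ι)) : Prop := a.1 ≤ b.1

instance : Std.Total (SR X ι) := ⟨fun a b => le_total a.1 b.1⟩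
instance : IsTrans (I × ℕ × List (Step X ι)) (SR X ι) := ⟨fun _ _ _ h1 h2 => le_trans h1 h2⟩

omit [MetricSpace X] in
theorem sorted_slots (L : List (I × ℕ × List (Step X ι)))
    {dr : DecidableRel (fun a b : I × ℕ × List (Step X ι) => a.1 ≤ b.1)} :
    (L.insertionSort (fun a b => a.1 ≤ b.1)).Pairwise (fun p q => p.1 ≤ q.1) :=
  List.pairwise_insertionSort (SR X ι) L

omit [MetricSpace X] in
theorem perm_slots (L : List (I × ℕ × List (Step X ι)))
    {dr : DecidableRel (fun a b : I × ℕ × List (Step X ι) => a.1 ≤ b.1)} :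
    (L.insertionSort (fun a b => a.1 ≤ b.1)).Perm L :=
  List.perm_insertionSort _ L

theorem Run.contFull (hCF : 𝓔.ContFullStmt) (R : Run T M m η F C0 bw SW) {n j : ℕ}
    (hn2 : 2 ≤ n) (hn : n < m) (hj : j ∈ T.ids n) :
    𝓔.IsW ((T.arc n j).f 0) (T.cont m bw SW n j) ((T.arc n j).f 1) ∧
    (∀ z ∈ 𝓔.supW (T.cont m bw SW n j), z ∈ range (T.arc n j).f ∨
      ∃ p ∈ T.slotsOn m SW n j, z ∈ 𝓔.supW p.2.2) ∧
    (∀ i ∈ (T.arc n j).E, i ∈ F → Sum.inl i ∈ items (T.cont m bw SW n j)) ∧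
    (∀ p ∈ T.slotsOn m SW n j, ∀ x ∈ items p.2.2, x ∈ items (T.cont m bw SW n j)) ∧
    ∃ Bp : Multiset (List (Step X ι)),
      Asm (Bp + Multiset.ofList ((T.slotsOn m SW n j).map (fun p => p.2.2)))
        {T.cont m bw SW n j} ∧
      (Bp.map (fun w => (items w : Multiset (ι ⊕ ℕ)))).sum.Nodup ∧
      (∀ x ∈ (Bp.map (fun w => (items w : Multiset (ι ⊕ ℕ)))).sum,
        ∃ i ∈ (T.arc n j).E, x = Sum.inl i) ∧
      (∀ i ∈ (T.arc n j).E, i ∈ F →
        Sum.inl i ∈ (Bp.map (fun w => (items w : Multiset (ι ⊕ ℕ)))).sum) ∧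
      (∀ w ∈ Bp, ∀ s ∈ w, 𝓔.GoodStep η s) ∧
      (∀ t : I, ∃ w ∈ Bp, ∃ y ∈ 𝓔.supW w, dist ((T.arc n j).f t) y ≤ η) := by
  unfold Tower.cont
  set L := T.slotsOn m SW n j with hL
  have hperm := fun dr => perm_slots (X := X) (ι := ι) L (dr := dr)
  have hsort := fun dr => sorted_slots (X := X) (ι := ι) L (dr := dr)
  obtain ⟨h1, h2, h3, h4, Bp, h5, h6, h7, h8, h9, h10⟩ :=
    hCF (T.arc n j) η F (bw n j) _ R.hη.le (fun s t hst hs ht => R.hbw n hn j hj s t hst hs ht)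
      (hsort _) (by
        intro p hp
        have hp' : p ∈ L := (hperm _).mem_iff.1 hp
        have := R.slot_ok (by omega : 1 ≤ n) hp'
        exact ⟨this.2.2.1, this.2.2.2.1⟩)
  refine ⟨h1, ?_, h3, ?_, Bp, ?_, h6, h7, h8, h9, h10⟩
  · intro z hz
    rcases h2 z hz with h | ⟨p, hp, h⟩
    · exact Or.inl h
    · exact Or.inr ⟨p, (hperm _).mem_iff.1 hp, h⟩
  · intro p hp
    exact h4 p ((hperm _).mem_iff.2 hp)
  · have := Multiset.coe_eq_coe.2 ((hperm (fun a b => Classical.propDecidable _)).map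
      (fun p => p.2.2))
    rw [← this]
    exact h5

/-! ## decorations -/

theorem chainA_cons {x y : X} {a : 𝓔.Arc} {l : List 𝓔.Arc} (h : 𝓔.ChainA x (a :: l) y) :
    x = a.f 0 ∧ 𝓔.ChainA (a.f 1) l y := by
  cases h with
  | cons a l y h => exact ⟨rfl, h⟩

theorem chainA_nil {x y : X} (h : 𝓔.ChainA x [] y) : x = y := by
  cases h with
  | nil x => rfl

theorem chain_isW {f : ℕ → List (Step X ι)} {n : ℕ} : ∀ (L : List ℕ) (x y : X),
    𝓔.ChainA x (L.map (T.arc n)) y →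
    (∀ j ∈ L, 𝓔.IsW ((T.arc n j).f 0) (f j) ((T.arc n j).f 1)) →
    𝓔.IsW x (L.flatMap f) y := by
  intro L
  induction L with
  | nil =>
    intro x y h _
    rw [List.map_nil] at h
    rw [chainA_nil h]
    exact IsW.nil _
  | cons j L ih =>
    intro x y h hj
    rw [List.map_cons] at h
    obtain ⟨h1, h2⟩ := chainA_cons h
    rw [List.flatMap_cons, h1]
    exact (hj j (List.mem_cons_self)).append
      (ih _ _ h2 (fun j' hj' => hj j' (List.mem_cons_of_mem _ hj')))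

theorem mem_supW_flatMap {α : Type*} {f : α → List (Step X ι)} {L : List α} {z : X} :
    z ∈ 𝓔.supW (L.flatMap f) ↔ ∃ j ∈ L, z ∈ 𝓔.supW (f j) := by
  induction L with
  | nil => simp
  | cons a L ih => simp [List.flatMap_cons, ih]

omit [MetricSpace X] in
theorem mem_items_flatMap {α : Type*} {f : α → List (Step X ι)} {L : List α} {z : ι ⊕ ℕ} :
    z ∈ items (L.flatMap f) ↔ ∃ j ∈ L, z ∈ items (f j) := by
  induction L with
  | nil => simp
  | cons a L ih => simp [List.flatMap_cons, ih]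

theorem ids_of_DV {n : ℕ} {D : Deco X ι} (hD : D ∈ T.DV n) : ∀ j ∈ D.pre ++ D.post, j ∈ T.ids n := by
  intro j hj
  unfold Tower.ids
  refine List.mem_append_left _ (List.mem_append_right _ ?_)
  exact List.mem_flatMap.2 ⟨D, hD, hj⟩

theorem ids_of_DS {n : ℕ} {D : Deco X ι × (ℕ × ℕ) × I} (hD : D ∈ T.DS n) :
    ∀ j ∈ D.1.pre ++ D.1.post, j ∈ T.ids n := by
  intro j hj
  unfold Tower.ids
  refine List.mem_append_right _ ?_
  exact List.mem_flatMap.2 ⟨D, hD, hj⟩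

theorem Run.cont_supW (hCF : 𝓔.ContFullStmt) (R : Run T M m η F C0 bw SW) {n j : ℕ}
    (hn2 : 2 ≤ n) (hn : n < m) (hj : j ∈ T.ids n) {z : X}
    (hz : z ∈ 𝓔.supW (T.cont m bw SW n j)) :
    ∃ y ∈ range (T.arc n j).f, dist z y ≤ T.κ (n + 1) := by
  rcases (R.contFull hCF hn2 hn hj).2.1 z hz with h | ⟨p, hp, h⟩
  · exact ⟨z, h, by simpa using (R.kappa_pos (by omega : 2 ≤ n + 1) (by omega)).le⟩
  · obtain ⟨h1, h2, h3, h4, h5⟩ := R.slot_ok (by omega : 1 ≤ n) hp
    refine ⟨(T.arc n j).f p.1, mem_range_self _, ?_⟩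
    exact (mem_closedBall.1 (h5 h)).trans (R.kappa_anti (by omega) (by omega) h2)

theorem Run.dcont (hCF : 𝓔.ContFullStmt) (R : Run T M m η F C0 bw SW) {n : ℕ}
    (hn2 : 2 ≤ n) (hn : n < m) {D : Deco X ι} (hD : T.DecoOK M n D)
    (hj : ∀ j ∈ D.pre ++ D.post, j ∈ T.ids n) :
    𝓔.IsW D.base (T.dcont m bw SW n D) D.base ∧
    𝓔.supW (T.dcont m bw SW n D) ⊆ closedBall D.base (2 * T.κ (n + 1)) ∧
    ((∀ i, D.lm = Sum.inl i → i ∈ F) → D.lm ∈ items (T.dcont m bw SW n D)) := by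
  obtain ⟨h1, h2, h3, h4, h5, h6, h7⟩ := hD
  have hκ := R.kappa_pos (by omega : 2 ≤ n + 1) (by omega)
  refine ⟨?_, ?_, ?_⟩
  · unfold Tower.dcont
    have hA := chain_isW (f := T.cont m bw SW n) _ _ _ h1 (fun j hj' =>
      (R.contFull hCF hn2 hn (hj j (List.mem_append_left _ hj'))).1)
    have hB := chain_isW (f := T.cont m bw SW n) _ _ _ h2 (fun j hj' =>
      (R.contFull hCF hn2 hn (hj j (List.mem_append_right _ hj'))).1)
    refine (hA.append ?_).append hB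
    cases D.mrk with
    | none => exact IsW.nil _
    | some k => exact IsW.single (𝓔 := 𝓔) (Step.mark k D.pt)
  · intro z hz
    have key : ∀ j ∈ D.pre ++ D.post, z ∈ 𝓔.supW (T.cont m bw SW n j) →
        z ∈ closedBall D.base (2 * T.κ (n + 1)) := by
      intro j hj' hz'
      obtain ⟨y, hy, hzy⟩ := R.cont_supW hCF hn2 hn (hj j hj') hz'
      have hyb : y ∈ closedBall D.base (T.κ (n + 1)) := by
        apply h3
        exact ⟨T.arc n j, List.mem_map.2 ⟨j, hj', rfl⟩, hy⟩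
      rw [mem_closedBall] at hyb ⊢
      linarith [dist_triangle z y D.base]
    unfold Tower.dcont at hz
    rw [supW_append, supW_append] at hz
    rcases hz with (hz | hz) | hz
    · obtain ⟨j, hj', hz⟩ := mem_supW_flatMap.1 hz
      exact key j (List.mem_append_left _ hj') hz
    · cases hm : D.mrk with
      | none =>
        rw [hm] at hz
        simp at hz
      | some k =>
        rw [hm] at hz
        have hz' : z = D.pt := by simpa [supp] using hz
        rw [hz', mem_closedBall]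
        have := mem_closedBall.1 h5.2
        linarith
    · obtain ⟨j, hj', hz⟩ := mem_supW_flatMap.1 hz
      exact key j (List.mem_append_right _ hj') hz
  · intro hF
    unfold Tower.dcont
    cases hm : D.mrk with
    | none =>
      obtain ⟨i, hi, hlm⟩ := h7 hm
      obtain ⟨a, ha, hia⟩ := hi
      obtain ⟨j, hj', rfl⟩ := List.mem_map.1 ha
      have hin := (R.contFull hCF hn2 hn (hj j hj')).2.2.1 i hia (hF i hlm)
      rw [hlm]
      simp only [items_append, List.append_assoc, List.mem_append]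
      rcases List.mem_append.1 hj' with hj'' | hj''
      · exact Or.inl (mem_items_flatMap.2 ⟨j, hj'', hin⟩)
      · exact Or.inr (Or.inr (mem_items_flatMap.2 ⟨j, hj'', hin⟩))
    | some k =>
      rw [(h6 k hm).1]
      simp [items, Step.item]

end Pool.Agent.EU.H8
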