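import Pool.Agent.Helper8_EU.Seqb

/-! # SEQ: the sequence of closed walks -/

open Set Metric Topology unitInterval

noncomputable section

namespace Pool.Agent.EU.H8

open Pool.Agent.EU EdgeSys

universe u v

variable {X : Type u} [MetricSpace X] {ι : Type v} {𝓔 : EdgeSys X ι}

theorem end_not_o (i j : ι) (t : I) (ht : t = 0 ∨ t = 1) : 𝓔.φ i t ∉ 𝓔.o j := by
  intro h
  have hcl : t ∈ closure (Ioo (0 : I) 1) := by
    rw [closure_Ioo (by simp : (0 : I) ≠ 1)]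
    rcases ht with rfl | rfl
    · exact ⟨le_rfl, zero_le_one⟩
    · exact ⟨zero_le_one, le_rfl⟩
  have hop : IsOpen (𝓔.φ i ⁻¹' (𝓔.o j)) := (𝓔.opn j).preimage (𝓔.φ i).continuous
  obtain ⟨s, hs, hs'⟩ := mem_closure_iff.1 hcl _ hop h
  have hij : i = j := by
    by_contra hne
    exact Set.disjoint_left.1 (𝓔.disj i j hne) ⟨s, hs', rfl⟩ hs
  subst hij
  obtain ⟨t', ht', htt⟩ := h
  have := 𝓔.inj i htt
  subst this
  rcases ht with rfl | rfl
  · exact lt_irrefl _ ht'.1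
  · exact lt_irrefl _ ht'.2

theorem end_mem_G (i : ι) (t : I) (ht : t = 0 ∨ t = 1) : 𝓔.φ i t ∈ 𝓔.G := by
  intro h
  obtain ⟨j, hj⟩ := mem_iUnion.1 h
  exact end_not_o i j t ht hj

theorem exists_other_G [Nontrivial X] (p : X) : ∃ x ∈ 𝓔.G, x ≠ p := by
  by_contra hcon
  push Not at hcon
  have hι : IsEmpty ι := by
    refine ⟨fun i => ?_⟩
    have h0 := hcon _ (end_mem_G (𝓔 := 𝓔) i 0 (Or.inl rfl))
    have h1 := hcon _ (end_mem_G (𝓔 := 𝓔) i 1 (Or.inr rfl))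
    have := 𝓔.inj i (h0.trans h1.symm)
    simp at this
  obtain ⟨x, y, hxy⟩ := exists_pair_ne X
  have hG : ∀ z : X, z ∈ 𝓔.G := by
    intro z hz
    obtain ⟨j, _⟩ := mem_iUnion.1 hz
    exact hι.elim j
  exact hxy ((hcon x (hG x)).trans (hcon y (hG y)).symm)

open Classical in
theorem seq [CompactSpace X] [Nontrivial X] (hTop : 𝓔.TopStmt) (hBot : 𝓔.BotStmt)
    (hAlong : 𝓔.AlongStmt) (hRun : 𝓔.RunStmt) (hPieces : 𝓔.PiecesStmt) (hCF : 𝓔.ContFullStmt)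
    (hHK : 𝓔.HKStmt) (hNull : 𝓔.NullStmt) : 𝓔.SeqStmt := by
  intro M hOr hEC
  obtain ⟨T, p, hT⟩ := hTop M hOr hEC
  set η : ℕ → ℝ := fun μ => min (1 / ((μ : ℝ) + 1)) (T.r (μ + 3) / 8) with hηdef
  set F : ℕ → Set ι := fun μ => {i | ¬ Small (1 / ((μ : ℝ) + 1)) (𝓔.c i)} with hFdef
  have hηpos : ∀ μ, 0 < η μ := fun μ => lt_min (by positivity)
    (div_pos (hT.levelA (μ + 3) (by omega)).rpos (by norm_num))
  have hη1 : ∀ μ, η μ ≤ 1 / ((μ : ℝ) + 1) := fun μ => min_le_left _ _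
  have hη8 : ∀ μ, 8 * η μ ≤ T.r (μ + 3) := by
    intro μ
    have : η μ ≤ T.r (μ + 3) / 8 := min_le_right _ _
    linarith
  have hFfin : ∀ μ, (F μ).Finite := fun μ => hNull _ (by positivity)
  have hstep := fun μ => seq_step hBot hAlong hRun hPieces hCF hT (by omega : 3 ≤ μ + 3)
    (hηpos μ) (hη8 μ) (hFfin μ)
  choose g hgW hgood hnodup hedge hmark1 hmark2 hdense hkey using hstep
  have hη0 : Filter.Tendsto η Filter.atTop (𝓝 0) := by
    refine squeeze_zero (fun μ => (hηpos μ).le) hη1 ?_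
    exact tendsto_one_div_add_atTop_nhds_zero_nat
  have hsmall : ∀ ε : ℝ, 0 < ε → ∀ᶠ μ : ℕ in Filter.atTop, 1 / ((μ : ℝ) + 1) < ε := by
    intro ε hε
    exact (tendsto_one_div_add_atTop_nhds_zero_nat (𝕜 := ℝ)).eventually (gt_mem_nhds hε)
  have hFev : ∀ i : ι, ∀ᶠ μ : ℕ in Filter.atTop, i ∈ F μ := by
    intro i
    have hne : 𝓔.φ i 0 ≠ 𝓔.φ i 1 := fun h => by
      have := 𝓔.inj i h
      simp at this
    filter_upwards [hsmall _ (dist_pos.2 hne)] with μ hμ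
    intro hs
    have := hs _ (mem_range_self (0 : I)) _ (mem_range_self (1 : I))
    linarith
  set MK : Set ℕ := {k | ∃ n, 2 ≤ n ∧ ∃ x, (k, x) ∈ T.marks n} with hMK
  have hq : ∀ k : ℕ, ∃ x : X, k ∈ MK → ∃ n, 2 ≤ n ∧ (k, x) ∈ T.marks n := by
    intro k
    by_cases h : k ∈ MK
    · obtain ⟨n, hn, x, hx⟩ := h
      exact ⟨x, fun _ => ⟨n, hn, hx⟩⟩
    · exact ⟨p, fun h' => absurd h' h⟩
  choose q hq using hq
  refine ⟨p, g, η, MK, q, hT.pG, hgW, hη0, hgood, hnodup, ?_, ?_, ?_, ?_, ?_⟩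
  · intro i
    filter_upwards [hFev i] with μ hμ
    refine hedge μ i hμ ?_
    intro hs
    exact hμ (Small.mono hs subset_rfl (hη1 μ))
  · intro k hk
    obtain ⟨n, hn, hx⟩ := hq k hk
    refine ⟨(mark_deco hT hn hx).2, ?_⟩
    filter_upwards [Filter.eventually_ge_atTop n] with μ hμ
    exact hmark1 μ n hn (by omega) k (q k) hx
  · intro μ k x hk
    obtain ⟨n, hn, _, hx⟩ := hmark2 μ k x hk
    have hkM : k ∈ MK := ⟨n, hn, x, hx⟩
    refine ⟨hkM, ?_⟩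
    obtain ⟨n', hn', hx'⟩ := hq k hkM
    exact mark_unique hT hn hn' hx hx'
  · intro θ hθ
    obtain ⟨k, hk3, hkθ⟩ : ∃ k, 3 ≤ k ∧ 12 * T.κ k ≤ θ := by
      have h1 : ∀ᶠ k in Filter.atTop, T.κ k < θ / 12 :=
        hT.κ0.eventually (gt_mem_nhds (by positivity))
      obtain ⟨k, hk, hk3⟩ := (h1.and (Filter.eventually_ge_atTop 3)).exists
      exact ⟨k, hk3, by linarith⟩
    obtain ⟨E, F0, η0, N, hEfin, hF0fin, hη0', hmk, hEF, hcore⟩ := hHK T M p hT k hk3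
    refine ⟨{x ∈ E | ∀ k, x = Sum.inr k → k ∈ MK}, hEfin.subset (fun x hx => hx.1),
      fun k hk => hk.2 k rfl, ?_⟩
    have hF0ev : ∀ᶠ μ : ℕ in Filter.atTop, ∀ i ∈ F0, i ∈ F μ :=
      (Filter.eventually_all_finite hF0fin).2 (fun i _ => hFev i)
    filter_upwards [hF0ev, hsmall _ hη0', Filter.eventually_ge_atTop N] with μ h1 h2 h3
    intro w1 w2 w3 hgw hwE
    refine Small.mono (hkey μ k E F0 η0 N hcore (by omega) ((hη1 μ).trans h2.le) h1 w1 w2 w3 hgw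
      ?_) subset_rfl hkθ
    intro x hx hxE
    refine hwE x hx ⟨hxE, ?_⟩
    rintro k' rfl
    obtain ⟨y, hy⟩ := mem_items_inr.1 hx
    have hyg : Step.mark k' y ∈ g μ := by
      rw [hgw]
      exact List.mem_append_left _ (List.mem_append_right _ hy)
    obtain ⟨n, hn, _, hn'⟩ := hmark2 μ k' y hyg
    exact ⟨n, hn, y, hn'⟩
  · obtain ⟨x0, hx0G, hx0⟩ := exists_other_G (𝓔 := 𝓔) p
    intro x hx ε hε
    filter_upwards [hsmall _ (dist_pos.2 hx0), hsmall (ε / 2) (by positivity)] with μ h1 h2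
    have hμ1 := hη1 μ
    have hne : g μ ≠ [] := by
      rintro h0
      rcases hdense μ x0 hx0G with ⟨y, hy, _⟩ | hd
      · rw [h0] at hy
        simp at hy
      · linarith
    rcases hdense μ x hx with ⟨y, hy, hd⟩ | hd
    · exact ⟨y, hy, by linarith⟩
    · exact ⟨p, (hgW μ).start_mem hne, by linarith⟩

end Pool.Agent.EU.H8
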