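import Pool.Agent.Helper8_EU.HK

/-! # SEQ: the bottom level and hosts -/

open Set Metric Topology unitInterval

noncomputable section

namespace Pool.Agent.EU.H8

open Pool.Agent.EU EdgeSys

universe u v

variable {X : Type u} [MetricSpace X] {ι : Type v} {𝓔 : EdgeSys X ι}

/-- the tower with a new bottom level -/
def botT (T : 𝓔.Tower) (m : ℕ) (N : Finset X) (PKm : List (X × (ℕ × ℕ) × I)) : 𝓔.Tower where
  arc := T.arc
  U n := if n < m then T.U n else N
  FA n := if n < m then T.FA n else []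
  DV n := if n < m then T.DV n else []
  DS n := if n < m then T.DS n else []
  PK n := if n < m then T.PK n else PKm
  κ := T.κ
  ρ := T.ρ
  r := T.r

theorem agree_bot (T : 𝓔.Tower) (m : ℕ) (N : Finset X) (PKm : List (X × (ℕ × ℕ) × I)) :
    Agree T (botT T m N PKm) m := by
  intro n hn
  simp [botT, hn]

variable {T : 𝓔.Tower} {M : Set X} {p : X}

theorem mem_S_iff {n : ℕ} {i : ι} : i ∈ T.S n ↔ ∃ l ≤ n, ∃ j ∈ T.ids l, i ∈ (T.arc l j).E := by
  simp only [Tower.S, mem_ofPred_eq, EL, Tower.arcs, List.mem_map]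
  constructor
  · rintro ⟨l, hl, a, ⟨j, hj, rfl⟩, hi⟩
    exact ⟨l, hl, j, hj, hi⟩
  · rintro ⟨l, hl, j, hj, hi⟩
    exact ⟨l, hl, _, ⟨j, hj, rfl⟩, hi⟩

theorem top_two (hT : 𝓔.TopOK T M p) {l j : ℕ} (hj : j ∈ T.ids l) : 2 ≤ l := by
  by_contra h
  have : l = 0 ∨ l = 1 := by omega
  rcases this with rfl | rfl
  · rw [hT.ids0] at hj
    simp at hj
  · rw [hT.ids1] at hj
    simp at hj

/-- HOST -/
theorem host_of_R (hT : 𝓔.TopOK T M p) {n : ℕ} {x : X} (hx : x ∈ 𝓔.R (T.S n)) :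
    ∃ l j, ∃ t : I, 2 ≤ l ∧ l ≤ n ∧ j ∈ T.ids l ∧ (T.arc l j).f t = x := by
  have hcl : IsClosed (⋃ l ∈ Finset.range (n + 1), ⋃ j ∈ (T.ids l).toFinset,
      range (T.arc l j).f) := by
    refine isClosed_biUnion_finset (fun l _ => isClosed_biUnion_finset (fun j _ => ?_))
    exact (isCompact_range (T.arc l j).f.continuous).isClosed
  have hsub : (⋃ i ∈ T.S n, 𝓔.o i) ⊆ ⋃ l ∈ Finset.range (n + 1), ⋃ j ∈ (T.ids l).toFinset,
      range (T.arc l j).f := by
    intro z hz
    simp only [mem_iUnion] at hz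
    obtain ⟨i, hi, hz⟩ := hz
    obtain ⟨l, hl, j, hj, hi⟩ := mem_S_iff.1 hi
    simp only [mem_iUnion]
    exact ⟨l, Finset.mem_range.2 (by omega), j, by simpa using hj, hi hz⟩
  have := closure_minimal hsub hcl hx
  simp only [mem_iUnion] at this
  obtain ⟨l, hl, j, hj, t, ht⟩ := this
  have hj' : j ∈ T.ids l := by simpa using hj
  exact ⟨l, j, t, top_two hT hj', by have := Finset.mem_range.1 hl; omega, hj', ht⟩

/-- vertices of levels at least two lie on arcs -/
theorem host_of_V (hT : 𝓔.TopOK T M p) {n : ℕ} {x : X} (hx : x ∈ T.V n) :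
    x = p ∨ ∃ l j, ∃ t : I, 2 ≤ l ∧ l ≤ n ∧ j ∈ T.ids l ∧ (T.arc l j).f t = x := by
  obtain ⟨l, h1, h2, h3⟩ := mem_V.1 hx
  rcases eq_or_lt_of_le h1 with rfl | h1'
  · rw [hT.U1, Finset.mem_singleton] at h3
    exact Or.inl h3
  · right
    have hA := hT.levelA l h1'
    have hB := hT.levelB l h1'
    by_cases hP : x ∈ T.P l
    · obtain ⟨q, hq, rfl⟩ := mem_P.1 hP
      obtain ⟨⟨ha, hb, hc⟩, hd⟩ := hA.Phost q hq
      exact ⟨q.2.1.1, q.2.1.2, q.2.2, ha, by omega, hc, hd⟩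
    · have hU' : x ∈ T.U' l := mem_U'.2 ⟨h3, hP⟩
      obtain ⟨w, t, ht, hch, _⟩ := hB.rooted x hU'
      have hmem : ∀ a ∈ (T.FA l).map (T.arc l), ∃ j ∈ T.ids l, T.arc l j = a := by
        intro a ha
        obtain ⟨j, hj, rfl⟩ := List.mem_map.1 ha
        refine ⟨j, ?_, rfl⟩
        unfold Tower.ids
        exact List.mem_append_left _ (List.mem_append_left _ hj)
      cases hch with
      | nil x =>
        exfalso
        rcases ht with ht | ht
        · exact hA.Udisj x h3 (by simpa using ht)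
        · exact hP (by simpa using ht)
      | fwd a w y ha _ =>
        obtain ⟨j, hj, rfl⟩ := hmem a ha
        exact ⟨l, j, 0, h1', h2, hj, rfl⟩
      | bwd a w y ha _ =>
        obtain ⟨j, hj, rfl⟩ := hmem a ha
        exact ⟨l, j, 1, h1', h2, hj, rfl⟩

theorem dA_zero (hT : 𝓔.TopOK T M p) {n : ℕ} {v : X} (hv : v ∉ T.V n) : T.dA n v = 0 := by
  unfold Tower.dA
  refine Finset.sum_eq_zero (fun l hl => ?_)
  have hln : l ≤ n := Nat.lt_succ_iff.1 (Finset.mem_range.1 hl)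
  have hends : ∀ a ∈ (T.FA l).map (T.arc l), a.f 0 ∈ T.V l ∧ a.f 1 ∈ T.V l := by
    intro a ha
    obtain ⟨j, hj, rfl⟩ := List.mem_map.1 ha
    have hj' : j ∈ T.ids l := by
      unfold Tower.ids
      exact List.mem_append_left _ (List.mem_append_left _ hj)
    have := (hT.levelB l (top_two hT hj')).FAends j hj
    exact ⟨this.1, this.2.1⟩
  have hVm : ∀ x ∈ T.V l, x ≠ v := by
    rintro x hx rfl
    obtain ⟨l', h1, h2, h3⟩ := mem_V.1 hx
    exact hv (mem_V.2 ⟨l', h1, by omega, h3⟩)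
  unfold degL
  rw [Nat.add_eq_zero_iff, List.countP_eq_zero, List.countP_eq_zero]
  constructor
  · intro a ha
    simpa using hVm _ (hends a ha).1
  · intro a ha
    simpa using hVm _ (hends a ha).2

theorem mark_deco (hT : 𝓔.TopOK T M p) {n : ℕ} (hn : 2 ≤ n) {k : ℕ} {x : X}
    (h : (k, x) ∈ T.marks n) : x ∈ 𝓔.G ∧ x ∈ M := by
  unfold Tower.marks at h
  have hB := hT.levelB n hn
  rcases List.mem_append.1 h with h | h
  · obtain ⟨D, hD, hk⟩ := List.mem_filterMap.1 h
    have hok := (hB.DVok D hD).1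
    cases hm : D.mrk with
    | none => rw [hm] at hk; simp at hk
    | some k' =>
      rw [hm] at hk
      have hk' : (k', D.pt) = (k, x) := by simpa using hk
      have hx : D.pt = x := congrArg Prod.snd hk'
      rw [← hx]
      exact ⟨hok.2.2.2.2.1.1, (hok.2.2.2.2.2.1 k' hm).2⟩
  · obtain ⟨D, hD, hk⟩ := List.mem_filterMap.1 h
    have hok := (hB.DSok D hD).1
    cases hm : D.1.mrk with
    | none => rw [hm] at hk; simp at hk
    | some k' =>
      rw [hm] at hk
      have hk' : (k', D.1.pt) = (k, x) := by simpa using hk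
      have hx : D.1.pt = x := congrArg Prod.snd hk'
      rw [← hx]
      exact ⟨hok.2.2.2.2.1.1, (hok.2.2.2.2.2.1 k' hm).2⟩

theorem mark_unique (hT : 𝓔.TopOK T M p) {n n' : ℕ} (hn : 2 ≤ n) (hn' : 2 ≤ n') {k : ℕ} {x x' : X}
    (h : (k, x) ∈ T.marks n) (h' : (k, x') ∈ T.marks n') : x = x' := by
  have hkey : ∀ a b : ℕ, 2 ≤ b → a < b → ∀ y y' : X, (k, y) ∈ T.marks a → (k, y') ∈ T.marks b →
      False := by
    intro a b hb hab y y' hy hy'
    exact (hT.levelB b hb).marksLow a hab k (List.mem_map.2 ⟨_, hy', rfl⟩)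
      (List.mem_map.2 ⟨_, hy, rfl⟩)
  rcases lt_trichotomy n n' with hlt | rfl | hlt
  · exact (hkey n n' hn' hlt x x' h h').elim
  · have := List.inj_on_of_nodup_map (hT.levelB n hn).marksNodup h h' rfl
    exact congrArg Prod.snd this
  · exact (hkey n' n hn hlt x' x h' h).elim

end Pool.Agent.EU.H8
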