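import Pool.Agent.Helper8_EU.Seqa

/-! # SEQ: one run -/

open Set Metric Topology unitInterval

noncomputable section

namespace Pool.Agent.EU.H8

open Pool.Agent.EU EdgeSys

universe u v

section tit

variable {X : Type u} {ι : Type v}

theorem tit_fsum {α : Type*} (s : Finset α) (f : α → Multiset (List (Step X ι))) :
    tit (∑ a ∈ s, f a) = ∑ a ∈ s, tit (f a) := by
  classical
  induction s using Finset.induction_on with
  | empty => simp
  | insert a s ha ih => rw [Finset.sum_insert ha, Finset.sum_insert ha, tit_add, ih]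

theorem tit_msum (S : Multiset (Multiset (List (Step X ι)))) :
    tit S.sum = (S.map tit).sum := by
  induction S using Multiset.induction_on with
  | empty => simp
  | cons a S ih => simp [ih]

theorem nodup_fsum {α β : Type*} (s : Finset α) (f : α → Multiset β)
    (h1 : ∀ a ∈ s, (f a).Nodup) (h2 : ∀ a ∈ s, ∀ b ∈ s, a ≠ b → ∀ x ∈ f a, x ∉ f b) :
    (∑ a ∈ s, f a).Nodup := by
  classical
  induction s using Finset.induction_on with
  | empty => simp
  | insert a s ha ih =>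
    rw [Finset.sum_insert ha, Multiset.nodup_add]
    refine ⟨h1 a (Finset.mem_insert_self _ _), ih (fun b hb => h1 b (Finset.mem_insert_of_mem hb))
      (fun b hb c hc => h2 b (Finset.mem_insert_of_mem hb) c (Finset.mem_insert_of_mem hc)), ?_⟩
    rw [Multiset.disjoint_left]
    intro x hx hx'
    obtain ⟨b, hb, hxb⟩ := Multiset.mem_sum.1 hx'
    exact h2 a (Finset.mem_insert_self _ _) b (Finset.mem_insert_of_mem hb)
      (fun h => ha (h ▸ hb)) x hx hxb

theorem mem_lsum {α β : Type*} {l : List α} {f : α → Multiset β} {x : β} :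
    x ∈ ((l : Multiset α).map f).sum ↔ ∃ a ∈ l, x ∈ f a := by
  constructor
  · intro h
    obtain ⟨R, hR, hx⟩ := Multiset.mem_join.1 h
    obtain ⟨a, ha, rfl⟩ := Multiset.mem_map.1 hR
    exact ⟨a, ha, hx⟩
  · rintro ⟨a, ha, hx⟩
    exact Multiset.mem_join.2 ⟨f a, Multiset.mem_map.2 ⟨a, ha, rfl⟩, hx⟩

theorem nodup_lsum {α β : Type*} (l : List α) (hl : l.Nodup) (f : α → Multiset β)
    (h1 : ∀ a ∈ l, (f a).Nodup) (h2 : ∀ a ∈ l, ∀ b ∈ l, a ≠ b → ∀ x ∈ f a, x ∉ f b) :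
    (((l : Multiset α).map f).sum).Nodup := by
  induction l with
  | nil => simp
  | cons a l ih =>
    rw [← Multiset.cons_coe, Multiset.map_cons, Multiset.sum_cons, Multiset.nodup_add]
    rw [List.nodup_cons] at hl
    refine ⟨h1 a List.mem_cons_self, ih hl.2 (fun b hb => h1 b (List.mem_cons_of_mem _ hb))
      (fun b hb c hc => h2 b (List.mem_cons_of_mem _ hb) c (List.mem_cons_of_mem _ hc)), ?_⟩
    rw [Multiset.disjoint_left]
    intro x hx hx'
    obtain ⟨b, hb, hxb⟩ := mem_lsum.1 hx'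
    exact h2 a List.mem_cons_self b (List.mem_cons_of_mem _ hb)
      (fun h => hl.1 (h ▸ hb)) x hx hxb

theorem tit_und (C : Multiset (TW X ι)) :
    tit (EdgeSys.und C) = (C.map (fun w => (items w.2.1 : Multiset (ι ⊕ ℕ)))).sum := by
  simp [tit, EdgeSys.und, Multiset.map_map, Function.comp_def]

theorem tit_marks (l : List (ℕ × X)) :
    tit (Multiset.ofList (l.map (fun p => ([Step.mark p.1 p.2] : List (Step X ι))))) =
      Multiset.ofList (l.map (fun p => (Sum.inr p.1 : ι ⊕ ℕ))) := by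
  induction l with
  | nil => simp
  | cons a l ih =>
    rw [List.map_cons, ← Multiset.cons_coe, tit_cons, ih, List.map_cons, ← Multiset.cons_coe]
    rfl

end tit

variable {X : Type u} [MetricSpace X] {ι : Type v} {𝓔 : EdgeSys X ι}

/-- the core of HK -/
def HKcore (T : 𝓔.Tower) (k : ℕ) (p : X) (E : Set (ι ⊕ ℕ)) (F0 : Set ι) (η0 : ℝ) (N : ℕ) : Prop :=
  ∀ (m : ℕ), N ≤ m → ∀ (T' : 𝓔.Tower) (η : ℝ) (F : Set ι) (C0 : Multiset (TW X ι))
    (bw : Tower.BW X ι) (C : ℕ → Multiset (TW X ι)) (SW : ℕ → List (List (Step X ι)))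
    (g : List (Step X ι)),
    (∀ n < m, T'.arc n = T.arc n ∧ T'.U n = T.U n ∧ T'.FA n = T.FA n ∧ T'.DV n = T.DV n ∧
      T'.DS n = T.DS n ∧ T'.PK n = T.PK n) → T'.κ = T.κ → T'.ρ = T.ρ → T'.r = T.r →
    0 < η → η ≤ η0 → F0 ⊆ F →
    T'.LevelA m → T'.BottomOK m η F C0 → T'.BWok m η F bw →
    C m = C0 → (∀ n, 2 ≤ n → n ≤ m → T'.SWok SW n) →
    (∀ n, 2 ≤ n → n ≤ m → ∃ pw, SW n =
      (T'.DS n).map (fun D => T'.dcont m bw SW n D.1) ++ pw) →
    (∀ n, 1 ≤ n → n < m → T'.COK m bw SW (C n) n) →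
    (∀ n, 2 ≤ n → n ≤ m →
      Asm (und (C n) + Multiset.ofList ((T'.FA n).map (T'.cont m bw SW n)) +
          Multiset.ofList ((T'.DV (n + 1)).map (T'.dcont m bw SW (n + 1))) +
          Multiset.ofList ((T'.DS n).map (fun D => T'.dcont m bw SW n D.1)))
        (und (C (n - 1)) + Multiset.ofList (SW n))) →
    Asm (und (C 1)) {g} → 𝓔.IsW p g p → (∀ s ∈ g, 𝓔.GoodStep η s) →
    ∀ w1 w2 w3, g = w1 ++ w2 ++ w3 → (∀ x ∈ items w2, x ∉ E) →
      Small (12 * T.κ k) (𝓔.supW w2)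

theorem isW_flatten {p : X} : ∀ (L : List (List (Step X ι))), (∀ w ∈ L, 𝓔.IsW p w p) →
    𝓔.IsW p L.flatten p := by
  intro L
  induction L with
  | nil => intro _; exact IsW.nil _
  | cons a L ih =>
    intro h
    rw [List.flatten_cons]
    exact (h a List.mem_cons_self).append (ih (fun w hw => h w (List.mem_cons_of_mem _ hw)))

theorem supW_of_asm {P : Multiset (List (Step X ι))} {g : List (Step X ι)} (h : Asm P {g})
    {w : List (Step X ι)} (hw : w ∈ P) : 𝓔.supW w ⊆ 𝓔.supW g := by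
  rintro z ⟨s, hs, hz⟩
  obtain ⟨g', hg', hh⟩ := h.exists_step ⟨w, hw, Or.inl hs⟩
  rw [Multiset.mem_singleton] at hg'
  subst hg'
  rcases hh with hh | hh
  · exact ⟨s, hh, hz⟩
  · exact ⟨s.rev, hh, by simpa using hz⟩

theorem tsup_eq {w : TW X ι} (h : 𝓔.TWok w) (hne : w.2.1 ≠ []) : 𝓔.tsup w = 𝓔.supW w.2.1 := by
  have h' : 𝓔.IsW w.1 w.2.1 w.2.2 := h
  unfold tsup
  refine union_eq_left.2 ?_
  rintro z (rfl | rfl)
  · exact h'.start_mem hne
  · exact h'.end_mem hne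

open Classical in
theorem seq_step (hBot : 𝓔.BotStmt) (hAlong : 𝓔.AlongStmt) (hRun : 𝓔.RunStmt)
    (hPieces : 𝓔.PiecesStmt) (hCF : 𝓔.ContFullStmt) {T : 𝓔.Tower} {M : Set X} {p : X}
    (hT : 𝓔.TopOK T M p) {m : ℕ} (hm : 3 ≤ m) {η : ℝ} (hη : 0 < η) (h8 : 8 * η ≤ T.r m)
    {F : Set ι} (hF : F.Finite) :
    ∃ g : List (Step X ι), 𝓔.IsW p g p ∧ (∀ s ∈ g, 𝓔.GoodStep η s) ∧ (items g).Nodup ∧
      (∀ i ∈ F, ¬ Small η (𝓔.c i) → Sum.inl i ∈ items g) ∧
      (∀ n, 2 ≤ n → n < m → ∀ k x, (k, x) ∈ T.marks n → Step.mark k x ∈ g) ∧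
      (∀ k x, Step.mark k x ∈ g → ∃ n, 2 ≤ n ∧ n < m ∧ (k, x) ∈ T.marks n) ∧
      (∀ x ∈ 𝓔.G, (∃ y ∈ 𝓔.supW g, dist x y ≤ 2 * η) ∨ dist x p ≤ η) ∧
      (∀ k E F0 η0 N, HKcore T k p E F0 η0 N → N ≤ m → η ≤ η0 → F0 ⊆ F →
        ∀ w1 w2 w3, g = w1 ++ w2 ++ w3 → (∀ x ∈ items w2, x ∉ E) →
          Small (12 * T.κ k) (𝓔.supW w2)) := by
  have hA := hT.levelA m (by omega)
  have hpV : p ∈ T.V (m - 1) := mem_V.2 ⟨1, le_rfl, by omega, by rw [hT.U1]; simp⟩
  obtain ⟨N, P, C0, hN, hPN, hP, hC0a, hC0b, hC0c, hC0d, hC0e, hC0f, hC0g, hC0h, hC0i, hC0j⟩ :=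
    hBot (T.S (m - 1)) (T.V (m - 1)) (T.dA (m - 1)) (T.r m) η F (hT.thin _ (by omega))
      ⟨p, hpV⟩ (fun v hv => top_V_G hT hv) (hT.par _ (by omega)) (fun v hv => dA_zero hT hv)
      (by
        have := hT.rooted (m - 1) (by omega)
        rwa [show m - 1 + 1 = m by omega] at this)
      hA.big hA.rpos hη h8 hF
  -- hosts of the pockets
  have hhost : ∀ q : X, ∃ h : (ℕ × ℕ) × I, q ∈ P → T.IsHost m h.1 ∧ (T.arc h.1.1 h.1.2).f h.2 = q := by
    intro q
    by_cases hq : q ∈ P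
    · obtain ⟨l, j, t, h1, h2, h3, h4⟩ := host_of_R hT (hP q hq).1
      exact ⟨((l, j), t), fun _ => ⟨⟨h1, (show l < m by omega), h3⟩, h4⟩⟩
    · exact ⟨((0, 0), 0), fun h => absurd h hq⟩
  choose hst hhst using hhost
  set PKm : List (X × (ℕ × ℕ) × I) := P.toList.map (fun q => (q, hst q)) with hPKm
  set T' : 𝓔.Tower := botT T m N PKm with hT'
  have hag : Agree T T' m := agree_bot T m N PKm
  have hUm : T'.U m = N := by simp [hT', botT]
  have hFAm : T'.FA m = [] := by simp [hT', botT]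
  have hDVm : T'.DV m = [] := by simp [hT', botT]
  have hDVm1 : T'.DV (m + 1) = [] := by simp [hT', botT]
  have hDSm : T'.DS m = [] := by simp [hT', botT]
  have hPKm' : T'.PK m = PKm := by simp [hT', botT]
  have hPm : ∀ x, x ∈ T'.P m ↔ x ∈ P := by
    intro x
    rw [mem_P, hPKm', hPKm]
    constructor
    · rintro ⟨q, hq, rfl⟩
      obtain ⟨y, hy, rfl⟩ := List.mem_map.1 hq
      simpa using hy
    · intro hx
      exact ⟨(x, hst x), List.mem_map.2 ⟨x, by simpa using hx, rfl⟩, rfl⟩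
  have hm1 : m - 1 < m := by omega
  have hVm1 : T'.V (m - 1) = T.V (m - 1) := hag.V hm1
  have hSm1 : T'.S (m - 1) = T.S (m - 1) := hag.S hm1
  have hVm : ∀ x, x ∈ T'.V m ↔ (x ∈ T.V (m - 1) ∨ x ∈ N) := by
    intro x
    constructor
    · intro h
      obtain ⟨l, h1, h2, h3⟩ := mem_V.1 h
      rcases lt_or_eq_of_le h2 with hlt | rfl
      · rw [hag.U hlt] at h3
        exact Or.inl (mem_V.2 ⟨l, h1, by omega, h3⟩)
      · rw [hUm] at h3
        exact Or.inr h3
    · rintro (h | h)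
      · obtain ⟨l, h1, h2, h3⟩ := mem_V.1 h
        exact mem_V.2 ⟨l, h1, by omega, by rw [hag.U (by omega)]; exact h3⟩
      · exact mem_V.2 ⟨m, by omega, le_rfl, by rw [hUm]; exact h⟩
  have hLA : T'.LevelA m := by
    refine ⟨?_, ?_, ?_, ?_, ?_, ?_, ?_, hA.stage, hA.ρκ, hA.κpos, hA.rpos, hA.rρ⟩
    · intro x hx
      rw [hUm] at hx
      exact (hN x hx).1
    · intro x hx
      rw [hUm] at hx
      rw [hVm1]
      exact (hN x hx).2
    · intro x hx
      rw [hUm]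
      exact hPN x ((hPm x).1 hx)
    · rw [hPKm', hPKm, List.map_map]
      have : (Prod.fst ∘ fun q => (q, hst q)) = (id : X → X) := rfl
      rw [this, List.map_id]
      exact P.nodup_toList
    · rw [hPKm']
      intro q hq
      obtain ⟨y, hy, rfl⟩ := List.mem_map.1 hq
      have hy' : y ∈ P := by simpa using hy
      exact ⟨(hag.isHost le_rfl _).2 (hhst y hy').1, (hhst y hy').2⟩
    · intro q hq v hv hvc
      rw [hVm1, hPm] at hv
      rw [hSm1] at hvc
      exact (hP q ((hPm q).1 hq)).2 v hv hvc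
    · rw [hVm1, hSm1]
      exact hA.big
  have hBO : T'.BottomOK m η F C0 := by
    refine ⟨hFAm, hDVm, hDVm1, hDSm, ?_, ?_, ?_, ?_, ?_, hC0f, ?_, ?_⟩
    · intro w hw
      obtain ⟨h1, h2, h3, h4⟩ := hC0a w hw
      rw [hSm1]
      exact ⟨h1, (hVm _).2 h2, (hVm _).2 h3, h4⟩
    · intro w hw
      exact (hC0b w hw).2
    · intro w hw h1 h2
      rw [hVm1] at h1 h2
      exact hC0c w hw h1 h2
    · exact hC0d
    · rw [hSm1]
      exact hC0e
    · intro v hv
      rw [hag.dA hm1]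
      exact hC0h v ((hVm v).1 hv)
    · intro u hu
      rw [mem_U', hUm, hPm] at hu
      obtain ⟨a, ha, h⟩ := hC0i u hu.1 hu.2
      refine ⟨a, ?_, h⟩
      rw [hVm1, hPm]
      exact ha
  have hbwex : ∀ (n j : ℕ) (s t : I), ∃ w : List (Step X ι), s ≤ t → (T.arc n j).f s ∈ 𝓔.G →
      (T.arc n j).f t ∈ 𝓔.G → 𝓔.Along (T.arc n j) η F s w t := by
    intro n j s t
    by_cases h : s ≤ t ∧ (T.arc n j).f s ∈ 𝓔.G ∧ (T.arc n j).f t ∈ 𝓔.G
    · obtain ⟨w, hw⟩ := hAlong (T.arc n j) η F hη hF s t h.1 h.2.1 h.2.2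
      exact ⟨w, fun _ _ _ => hw⟩
    · exact ⟨[], fun h1 h2 h3 => absurd ⟨h1, h2, h3⟩ h⟩
  choose bw hbw using hbwex
  have hBW : T'.BWok m η F bw := by
    intro n _ j _ s t hst hs ht
    exact hbw n j s t hst hs ht
  obtain ⟨C, SW, hCm, hSW, hpw, hCOK, hAsm⟩ := hRun T' M m η F C0 bw (by omega) hη
    ⟨p, by rw [hag.U (by omega : 1 < m)]; exact hT.U1⟩
    (by rw [hag.ids (by omega : 0 < m)]; exact hT.ids0)
    (by rw [hag.ids (by omega : 1 < m)]; exact hT.ids1)
    (by rw [hag.U (by omega : 0 < m)]; exact hT.U0)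
    (by
      intro n h2 hn
      rcases lt_or_eq_of_le hn with hlt | rfl
      · exact hag.levelA rfl rfl rfl h2 hlt (hT.levelA n h2)
      · exact hLA)
    (by
      intro n h2 hlt
      exact hag.levelB rfl rfl rfl h2 hlt (hT.levelB n h2))
    hBO hBW
  have R : Run T' M m η F C0 bw SW := by
    refine ⟨?_, ?_, hBO, hBW, hSW, hη⟩
    · intro n h2 hn
      rcases lt_or_eq_of_le hn with hlt | rfl
      · exact hag.levelA rfl rfl rfl h2 hlt (hT.levelA n h2)
      · exact hLA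
    · intro n h2 hlt
      exact hag.levelB rfl rfl rfl h2 hlt (hT.levelB n h2)
  -- the closed walk
  set g : List (Step X ι) := (und (C 1)).toList.flatten with hg
  have hg1 : Asm (und (C 1)) {g} := by
    have := Asm.flatten ((und (C 1)).toList)
    rwa [Multiset.coe_toList] at this
  have hgW : 𝓔.IsW p g p := by
    refine isW_flatten _ (fun w hw => ?_)
    rw [Multiset.mem_toList] at hw
    obtain ⟨tw, htw, rfl⟩ := Multiset.mem_map.1 hw
    obtain ⟨h1, h2, h3, _⟩ := hCOK 1 le_rfl (by omega) tw htw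
    rw [hag.V (by omega : 1 < m)] at h2 h3
    have hV1 : ∀ x, x ∈ T.V 1 → x = p := by
      intro x hx
      obtain ⟨l, h1, h2, h3⟩ := mem_V.1 hx
      have hl : l = 1 := by omega
      rw [hl, hT.U1, Finset.mem_singleton] at h3
      exact h3
    have h1' : 𝓔.IsW tw.1 tw.2.1 tw.2.2 := h1
    rwa [hV1 _ h2, hV1 _ h3] at h1'
  -- full decomposition
  have hBp : ∀ x : ℕ × ℕ, 2 ≤ x.1 ∧ x.1 < m ∧ x.2 ∈ T'.ids x.1 → ∃ Bp : Multiset (List (Step X ι)),
      Asm (Bp + Multiset.ofList ((T'.slotsOn m SW x.1 x.2).map (fun p => p.2.2)))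
        {T'.cont m bw SW x.1 x.2} ∧
      (tit Bp).Nodup ∧
      (∀ y ∈ tit Bp, ∃ i ∈ (T.arc x.1 x.2).E, y = Sum.inl i) ∧
      (∀ i ∈ (T.arc x.1 x.2).E, i ∈ F → Sum.inl i ∈ tit Bp) ∧
      (∀ w ∈ Bp, ∀ s ∈ w, 𝓔.GoodStep η s) ∧
      (∀ t : I, ∃ w ∈ Bp, ∃ y ∈ 𝓔.supW w, dist ((T.arc x.1 x.2).f t) y ≤ η) := by
    intro x hx
    exact (R.contFull hCF hx.1 hx.2.1 hx.2.2).2.2.2.2
  choose! Bp hB1 hB2 hB3 hB4 hB5 hB6 using hBp
  have hidsm : T'.ids m = [] := by
    unfold Tower.ids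
    rw [hFAm, hDVm, hDSm]
    simp
  have hAs := hPieces T' m bw C SW (m + 1) (fun n j => Bp (n, j)) g
    (fun n h2 hn h hh => (R.host h2 hn hh).1)
    (by
      intro n h2 hn
      rcases lt_or_eq_of_le hn with hlt | rfl
      · exact (R.hB n h2 hlt).idsNodup
      · rw [hidsm]
        exact List.nodup_nil)
    (fun n h2 hn => (R.hSW n h2 hn).length_eq.symm)
    hAsm (by omega) le_rfl
    (by
      intro n h2 hn j hj
      have hnm : n < m := by
        rcases lt_or_eq_of_le (Nat.lt_succ_iff.1 hn) with h | rfl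
        · exact h
        · rw [hidsm] at hj
          simp at hj
      have hfil : (T'.slotsOn m SW n j).filter (fun p => decide (p.2.1 < m + 1)) =
          T'.slotsOn m SW n j := by
        rw [List.filter_eq_self]
        intro q hq
        have := (R.slot_ok (by omega : 1 ≤ n) hq).2.1
        simpa using Nat.lt_succ_iff.2 this
      rw [hfil]
      exact hB1 (n, j) ⟨h2, hnm, hj⟩)
    (by rw [hag.DV (by omega : 2 < m)]; exact hT.dv2) hg1
  have hmarksm : T'.marks m = [] := by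
    unfold Tower.marks
    rw [hDVm, hDSm]
    simp
  rw [show m + 1 - 1 = m by omega, hCm, hDVm1, List.map_nil, Multiset.coe_nil, add_zero] at hAs
  set P1 : Multiset (List (Step X ι)) := und C0 with hP1
  set Rt : Multiset (List (Step X ι)) :=
    (∑ n ∈ Finset.Ico 2 (m + 1), ((T'.ids n : Multiset ℕ).map (fun j => Bp (n, j))).sum) with hRt
  set P3 : Multiset (List (Step X ι)) :=
    (∑ n ∈ Finset.Ico 2 (m + 1), Multiset.ofList ((T'.marks n).map
      (fun p => ([Step.mark p.1 p.2] : List (Step X ι))))) with hP3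
  have hRtmem : ∀ w, w ∈ Rt ↔ ∃ n j, 2 ≤ n ∧ n < m ∧ j ∈ T'.ids n ∧ w ∈ Bp (n, j) := by
    intro w
    rw [hRt, Multiset.mem_sum]
    constructor
    · rintro ⟨n, hn, h⟩
      obtain ⟨j, hj, hw⟩ := mem_lsum.1 h
      obtain ⟨h1, h2⟩ := Finset.mem_Ico.1 hn
      refine ⟨n, j, h1, ?_, hj, hw⟩
      rcases lt_or_eq_of_le (Nat.lt_succ_iff.1 h2) with h | rfl
      · exact h
      · rw [hidsm] at hj
        simp at hj
    · rintro ⟨n, j, h1, h2, hj, hw⟩
      exact ⟨n, Finset.mem_Ico.2 ⟨h1, by omega⟩, mem_lsum.2 ⟨j, hj, hw⟩⟩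
  have hP3mem : ∀ w, w ∈ P3 ↔ ∃ n k x, 2 ≤ n ∧ n < m ∧ (k, x) ∈ T.marks n ∧
      w = [Step.mark k x] := by
    intro w
    rw [hP3, Multiset.mem_sum]
    constructor
    · rintro ⟨n, hn, h⟩
      obtain ⟨⟨k, x⟩, hk, rfl⟩ := List.mem_map.1 (Multiset.mem_coe.1 h)
      obtain ⟨h1, h2⟩ := Finset.mem_Ico.1 hn
      have hnm : n < m := by
        rcases lt_or_eq_of_le (Nat.lt_succ_iff.1 h2) with h | rfl
        · exact h
        · rw [hmarksm] at hk
          simp at hk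
      rw [hag.marks hnm] at hk
      exact ⟨n, k, x, h1, hnm, hk, rfl⟩
    · rintro ⟨n, k, x, h1, h2, hk, rfl⟩
      refine ⟨n, Finset.mem_Ico.2 ⟨h1, by omega⟩, Multiset.mem_coe.2 (List.mem_map.2
        ⟨(k, x), ?_, rfl⟩)⟩
      rw [hag.marks h2]
      exact hk
  have htit : tit (P1 + Rt + P3) = (items g : Multiset (ι ⊕ ℕ)) := by
    rw [hAs.tit_eq, tit_singleton]
  have hC0g' : ∀ i ∈ F, i ∉ T.S (m - 1) → ¬ Small η (𝓔.c i) → Sum.inl i ∈ tit P1 := by
    rw [hP1, tit_und]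
    exact hC0g
  have hC0e' : ∀ x ∈ tit P1, ∃ i, x = Sum.inl i ∧ i ∉ T.S (m - 1) := by
    rw [hP1, tit_und]
    exact hC0e
  have hC0f' : (tit P1).Nodup := by
    rw [hP1, tit_und]
    exact hC0f
  have hRtitem : ∀ x ∈ tit Rt, ∃ n j, 2 ≤ n ∧ n < m ∧ j ∈ T.ids n ∧
      ∃ i ∈ (T.arc n j).E, x = Sum.inl i := by
    intro x hx
    obtain ⟨w, hw, hxw⟩ := mem_tit.1 hx
    obtain ⟨n, j, h1, h2, hj, hw⟩ := (hRtmem w).1 hw
    refine ⟨n, j, h1, h2, by rw [← hag.ids h2]; exact hj, ?_⟩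
    exact hB3 (n, j) ⟨h1, h2, hj⟩ x (mem_tit.2 ⟨w, hw, hxw⟩)
  have hP3item : ∀ x ∈ tit P3, ∃ k, x = Sum.inr k := by
    intro x hx
    obtain ⟨w, hw, hxw⟩ := mem_tit.1 hx
    obtain ⟨n, k, y, _, _, _, rfl⟩ := (hP3mem w).1 hw
    refine ⟨k, ?_⟩
    simpa [items, Step.item] using hxw
  have hsubg : ∀ w ∈ P1 + Rt + P3, 𝓔.supW w ⊆ 𝓔.supW g := fun w hw => supW_of_asm hAs hw
  have harc : ∀ l j (t : I), 2 ≤ l → l < m → j ∈ T.ids l →
      ∃ y ∈ 𝓔.supW g, dist ((T.arc l j).f t) y ≤ η := by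
    intro l j t h1 h2 hj
    have hj' : j ∈ T'.ids l := by rw [hag.ids h2]; exact hj
    obtain ⟨w, hw, y, hy, hd⟩ := hB6 (l, j) ⟨h1, h2, hj'⟩ t
    refine ⟨y, hsubg w ?_ hy, hd⟩
    exact Multiset.mem_add.2 (Or.inl (Multiset.mem_add.2 (Or.inr
      ((hRtmem w).2 ⟨l, j, h1, h2, hj', hw⟩))))
  have hgoodg : ∀ s ∈ g, 𝓔.GoodStep η s := by
    have := hAs.forall_step (p := fun s => 𝓔.GoodStep η s) (fun s hs => hs.rev) (by
      intro w hw s hs
      rcases Multiset.mem_add.1 hw with hw | hw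
      · rcases Multiset.mem_add.1 hw with hw | hw
        · obtain ⟨tw, htw, rfl⟩ := Multiset.mem_map.1 hw
          exact (hC0b tw htw).2 s hs
        · obtain ⟨n, j, h1, h2, hj, hw⟩ := (hRtmem w).1 hw
          exact hB5 (n, j) ⟨h1, h2, hj⟩ w hw s hs
      · obtain ⟨n, k, y, h1, h2, hk, rfl⟩ := (hP3mem w).1 hw
        rw [List.mem_singleton] at hs
        subst hs
        exact (mark_deco hT h1 hk).1)
    exact this g (Multiset.mem_singleton_self _)
  refine ⟨g, hgW, hgoodg, ?_, ?_, ?_, ?_, ?_, ?_⟩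
  · -- no item twice
    rw [← Multiset.coe_nodup, ← htit, tit_add, tit_add, Multiset.nodup_add, Multiset.nodup_add]
    refine ⟨⟨hC0f', ?_, ?_⟩, ?_, ?_⟩
    · rw [hRt, tit_fsum]
      refine nodup_fsum _ _ ?_ ?_
      · intro n hn
        obtain ⟨h1, h2⟩ := Finset.mem_Ico.1 hn
        rw [tit_msum, Multiset.map_map]
        rcases lt_or_eq_of_le (Nat.lt_succ_iff.1 h2) with h | rfl
        · refine nodup_lsum _ (R.hB n h1 h).idsNodup _ ?_ ?_
          · intro j hj
            exact hB2 (n, j) ⟨h1, h, hj⟩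
          · intro j hj j' hj' hne x hx hx'
            obtain ⟨i, hi, rfl⟩ := hB3 (n, j) ⟨h1, h, hj⟩ x hx
            obtain ⟨i', hi', hii⟩ := hB3 (n, j') ⟨h1, h, hj'⟩ _ hx'
            have hii' : i = i' := Sum.inl.inj hii
            subst hii'
            exact Set.disjoint_left.1 ((R.hB n h1 h).disjSame j hj j' hj' hne) hi hi'
        · rw [hidsm]
          simp
      · intro n hn n' hn' hne x hx hx'
        rw [tit_msum, Multiset.map_map] at hx hx'
        obtain ⟨j, hj, hx⟩ := mem_lsum.1 hx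
        obtain ⟨j', hj', hx'⟩ := mem_lsum.1 hx'
        obtain ⟨h1, h2⟩ := Finset.mem_Ico.1 hn
        obtain ⟨h1', h2'⟩ := Finset.mem_Ico.1 hn'
        have hlt : n < m := by
          rcases lt_or_eq_of_le (Nat.lt_succ_iff.1 h2) with h | rfl
          · exact h
          · rw [hidsm] at hj
            simp at hj
        have hlt' : n' < m := by
          rcases lt_or_eq_of_le (Nat.lt_succ_iff.1 h2') with h | rfl
          · exact h
          · rw [hidsm] at hj'
            simp at hj'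
        obtain ⟨i, hi, rfl⟩ := hB3 (n, j) ⟨h1, hlt, hj⟩ x hx
        obtain ⟨i', hi', hii⟩ := hB3 (n', j') ⟨h1', hlt', hj'⟩ _ hx'
        have hii' : i = i' := Sum.inl.inj hii
        subst hii'
        have hjT : j ∈ T.ids n := by rw [← hag.ids hlt]; exact hj
        have hjT' : j' ∈ T.ids n' := by rw [← hag.ids hlt']; exact hj'
        rcases lt_or_gt_of_ne hne with h | h
        · exact Set.disjoint_left.1 ((hT.levelB n' h1').disjLow j' hjT') hi'
            (mem_S_iff.2 ⟨n, by omega, j, hjT, hi⟩)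
        · exact Set.disjoint_left.1 ((hT.levelB n h1).disjLow j hjT) hi
            (mem_S_iff.2 ⟨n', by omega, j', hjT', hi'⟩)
    · rw [Multiset.disjoint_left]
      intro x hx hx'
      obtain ⟨i, rfl, hi⟩ := hC0e' x hx
      obtain ⟨n, j, h1, h2, hj, i', hi', hii⟩ := hRtitem _ hx'
      have hii' : i = i' := Sum.inl.inj hii
      subst hii'
      exact hi (mem_S_iff.2 ⟨n, by omega, j, hj, hi'⟩)
    · rw [hP3, tit_fsum]
      refine nodup_fsum _ _ ?_ ?_
      · intro n hn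
        obtain ⟨h1, h2⟩ := Finset.mem_Ico.1 hn
        rw [tit_marks]
        rcases lt_or_eq_of_le (Nat.lt_succ_iff.1 h2) with h | rfl
        · have := (R.hB n h1 h).marksNodup
          have h' := this.map (f := (Sum.inr : ℕ → ι ⊕ ℕ)) Sum.inr_injective
          rw [List.map_map] at h'
          exact Multiset.coe_nodup.2 h'
        · rw [hmarksm]
          simp
      · intro n hn n' hn' hne x hx hx'
        rw [tit_marks] at hx hx'
        obtain ⟨⟨k, y⟩, hk, rfl⟩ := List.mem_map.1 (Multiset.mem_coe.1 hx)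
        obtain ⟨⟨k', y'⟩, hk', hkk⟩ := List.mem_map.1 (Multiset.mem_coe.1 hx')
        have hkk' : k' = k := Sum.inr.inj hkk
        subst hkk'
        obtain ⟨h1, h2⟩ := Finset.mem_Ico.1 hn
        obtain ⟨h1', h2'⟩ := Finset.mem_Ico.1 hn'
        have hlt : n < m := by
          rcases lt_or_eq_of_le (Nat.lt_succ_iff.1 h2) with h | rfl
          · exact h
          · rw [hmarksm] at hk
            simp at hk
        have hlt' : n' < m := by
          rcases lt_or_eq_of_le (Nat.lt_succ_iff.1 h2') with h | rfl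
          · exact h
          · rw [hmarksm] at hk'
            simp at hk'
        rcases lt_or_gt_of_ne hne with h | h
        · exact (R.hB n' h1' hlt').marksLow n h k' (List.mem_map.2 ⟨_, hk', rfl⟩)
            (List.mem_map.2 ⟨_, hk, rfl⟩)
        · exact (R.hB n h1 hlt).marksLow n' h k' (List.mem_map.2 ⟨_, hk, rfl⟩)
            (List.mem_map.2 ⟨_, hk', rfl⟩)
    · rw [Multiset.disjoint_left]
      intro x hx hx'
      obtain ⟨k, rfl⟩ := hP3item x hx'
      rcases Multiset.mem_add.1 hx with hx | hx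
      · obtain ⟨i, hi, _⟩ := hC0e' _ hx
        exact absurd hi (by simp)
      · obtain ⟨_, _, _, _, _, i, _, hi⟩ := hRtitem _ hx
        exact absurd hi (by simp)
  · -- edges
    intro i hi hsm
    rw [← Multiset.mem_coe, ← htit, tit_add, tit_add]
    by_cases hS : i ∈ T.S (m - 1)
    · obtain ⟨l, hl, j, hj, hij⟩ := mem_S_iff.1 hS
      have h2 := top_two hT hj
      have hlm : l < m := by omega
      have hj' : j ∈ T'.ids l := by rw [hag.ids hlm]; exact hj
      have := hB4 (l, j) ⟨h2, hlm, hj'⟩ i hij hi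
      obtain ⟨w, hw, hxw⟩ := mem_tit.1 this
      refine Multiset.mem_add.2 (Or.inl (Multiset.mem_add.2 (Or.inr (mem_tit.2 ⟨w, ?_, hxw⟩))))
      exact (hRtmem w).2 ⟨l, j, h2, hlm, hj', hw⟩
    · exact Multiset.mem_add.2 (Or.inl (Multiset.mem_add.2 (Or.inl (hC0g' i hi hS hsm))))
  · -- markers occur
    intro n h2 hn k x hk
    obtain ⟨g', hg', h⟩ := hAs.exists_step (s := Step.mark k x) ⟨[Step.mark k x],
      Multiset.mem_add.2 (Or.inr ((hP3mem _).2 ⟨n, k, x, h2, hn, hk, rfl⟩)),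
      Or.inl (List.mem_singleton_self _)⟩
    rw [Multiset.mem_singleton] at hg'
    subst hg'
    rcases h with h | h
    · exact h
    · exact h
  · -- only these markers occur
    have := hAs.forall_step (p := fun s => ∀ k x, s = Step.mark k x →
        ∃ n, 2 ≤ n ∧ n < m ∧ (k, x) ∈ T.marks n) (by
      intro s hs k x hsk
      apply hs k x
      have := congrArg Step.rev hsk
      rwa [Step.rev_rev] at this) (by
      rintro w hw s hs k x rfl
      have hitem : (Sum.inr k : ι ⊕ ℕ) ∈ items w := mem_items_inr.2 ⟨x, hs⟩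
      rcases Multiset.mem_add.1 hw with hw | hw
      · rcases Multiset.mem_add.1 hw with hw | hw
        · obtain ⟨i, hi, _⟩ := hC0e' _ (mem_tit.2 ⟨w, hw, hitem⟩)
          exact absurd hi (by simp)
        · obtain ⟨_, _, _, _, _, i, _, hi⟩ := hRtitem _ (mem_tit.2 ⟨w, hw, hitem⟩)
          exact absurd hi (by simp)
      · obtain ⟨n, k', y, h1, h2, hk, rfl⟩ := (hP3mem w).1 hw
        rw [List.mem_singleton] at hs
        have e1 : k = k' ∧ x = y := by simpa using hs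
        rw [e1.1, e1.2]
        exact ⟨n, h1, h2, hk⟩)
    intro k x hk
    exact this g (Multiset.mem_singleton_self _) _ hk k x rfl
  · -- density
    intro x hx
    rcases hC0j x hx with ⟨w, hw, y, hy, hd⟩ | ⟨y, hy, hd⟩ | ⟨v, hv, hd⟩
    · left
      rw [tsup_eq (hC0a w hw).1 (hC0b w hw).1] at hy
      refine ⟨y, hsubg w.2.1 ?_ hy, by linarith⟩
      exact Multiset.mem_add.2 (Or.inl (Multiset.mem_add.2 (Or.inl
        (Multiset.mem_map.2 ⟨w, hw, rfl⟩))))
    · left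
      obtain ⟨l, j, t, h1, h2, hj, rfl⟩ := host_of_R hT hy
      obtain ⟨y', hy', hd'⟩ := harc l j t h1 (by omega) hj
      exact ⟨y', hy', by linarith [dist_triangle x ((T.arc l j).f t) y']⟩
    · rcases host_of_V hT hv with rfl | ⟨l, j, t, h1, h2, hj, rfl⟩
      · exact Or.inr hd
      · left
        obtain ⟨y', hy', hd'⟩ := harc l j t h1 (by omega) hj
        exact ⟨y', hy', by linarith [dist_triangle x ((T.arc l j).f t) y']⟩
  · -- key estimate
    intro k E F0 η0 N0 hcore hN0 hηη0 hF0 w1 w2 w3 hgw hwE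
    exact hcore m hN0 T' η F C0 bw C SW g (fun n hn => hag n hn) rfl rfl rfl hη hηη0 hF0 hLA hBO
      hBW hCm hSW hpw hCOK hAsm hg1 hgW hgoodg w1 w2 w3 hgw hwE

end Pool.Agent.EU.H8
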