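import Pool.Agent.Helper17_EU.StmtsF

/-! # XSYS: data of one edge -/

open Set Metric Topology unitInterval

noncomputable section

namespace Pool.Agent.EU.H8

open Pool.Agent.EU EdgeSys

universe u v

variable {X : Type u} [MetricSpace X]

theorem ext_curve {e : Set X} (φ : e ≃ₜ Ioo (0 : ℝ) 1) {a b : X}
    (ha : Filter.Tendsto (fun t : Ioo (0 : ℝ) 1 => ((φ.symm t : e) : X))
      (Filter.comap Subtype.val (𝓝 0)) (𝓝 a))
    (hb : Filter.Tendsto (fun t : Ioo (0 : ℝ) 1 => ((φ.symm t : e) : X))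
      (Filter.comap Subtype.val (𝓝 1)) (𝓝 b)) :
    ∃ Φ : C(I, X), Φ 0 = a ∧ Φ 1 = b ∧
      ∀ (t : I) (h : (t : ℝ) ∈ Ioo (0 : ℝ) 1), Φ t = (φ.symm ⟨t, h⟩ : e) := by
  classical
  set f : I → X := fun t => if h : (t : ℝ) ∈ Ioo (0 : ℝ) 1 then ((φ.symm ⟨t, h⟩ : e) : X)
    else if (t : ℝ) ≤ 0 then a else b with hf
  have hfin : ∀ (t : I) (h : (t : ℝ) ∈ Ioo (0 : ℝ) 1), f t = (φ.symm ⟨t, h⟩ : e) := by
    intro t h
    simp only [hf]
    rw [dif_pos h]
  have hf0 : f 0 = a := by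
    simp only [hf]
    rw [dif_neg (by simp), if_pos (by simp)]
  have hf1 : f 1 = b := by
    simp only [hf]
    rw [dif_neg (by simp), if_neg (by simp)]
  have hcont : Continuous f := by
    rw [continuous_iff_continuousAt]
    intro t
    by_cases ht : (t : ℝ) ∈ Ioo (0 : ℝ) 1
    · have hO : IsOpen {s : I | (s : ℝ) ∈ Ioo (0 : ℝ) 1} := isOpen_Ioo.preimage
        continuous_subtype_val
      have hcon : ContinuousOn f {s : I | (s : ℝ) ∈ Ioo (0 : ℝ) 1} := by
        rw [continuousOn_iff_continuous_domRestrict]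
        have he : ({s : I | (s : ℝ) ∈ Ioo (0 : ℝ) 1}).domRestrict f =
            fun s => ((φ.symm ⟨(s.1 : ℝ), s.2⟩ : e) : X) := by
          funext s
          exact hfin s.1 s.2
        rw [he]
        refine continuous_subtype_val.comp (φ.symm.continuous.comp ?_)
        exact (continuous_subtype_val.comp continuous_subtype_val).subtype_mk _
      exact hcon.continuousAt (hO.mem_nhds ht)
    · have ht' : t = 0 ∨ t = 1 := by
        rcases eq_or_lt_of_le t.2.1 with h | h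
        · left
          exact Subtype.ext h.symm
        · rcases eq_or_lt_of_le t.2.2 with h' | h'
          · right
            exact Subtype.ext h'
          · exact absurd ⟨h, h'⟩ ht
      rcases ht' with rfl | rfl
      · unfold ContinuousAt
        rw [hf0]
        intro U hU
        obtain ⟨V, hV, hVU⟩ := ha hU
        have h1 : ∀ᶠ s : I in 𝓝 0, (s : ℝ) ∈ V :=
          (continuous_subtype_val.tendsto (0 : I)) (by simpa using hV)
        have h2 : ∀ᶠ s : I in 𝓝 0, (s : ℝ) < 1 :=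
          (continuous_subtype_val.tendsto (0 : I)) (Iio_mem_nhds (by simp))
        rw [Filter.mem_map]
        filter_upwards [h1, h2] with s hs1 hs2
        by_cases hs : (s : ℝ) ∈ Ioo (0 : ℝ) 1
        · change f s ∈ U
          rw [hfin s hs]
          exact hVU (show (⟨(s : ℝ), hs⟩ : Ioo (0 : ℝ) 1).1 ∈ V from hs1)
        · have hs0 : s = 0 := by
            rcases eq_or_lt_of_le s.2.1 with h | h
            · exact Subtype.ext h.symm
            · exact absurd ⟨h, hs2⟩ hs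
          change f s ∈ U
          rw [hs0, hf0]
          exact mem_of_mem_nhds hU
      · unfold ContinuousAt
        rw [hf1]
        intro U hU
        obtain ⟨V, hV, hVU⟩ := hb hU
        have h1 : ∀ᶠ s : I in 𝓝 1, (s : ℝ) ∈ V :=
          (continuous_subtype_val.tendsto (1 : I)) (by simpa using hV)
        have h2 : ∀ᶠ s : I in 𝓝 1, 0 < (s : ℝ) :=
          (continuous_subtype_val.tendsto (1 : I)) (Ioi_mem_nhds (by simp))
        rw [Filter.mem_map]
        filter_upwards [h1, h2] with s hs1 hs2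
        by_cases hs : (s : ℝ) ∈ Ioo (0 : ℝ) 1
        · change f s ∈ U
          rw [hfin s hs]
          exact hVU (show (⟨(s : ℝ), hs⟩ : Ioo (0 : ℝ) 1).1 ∈ V from hs1)
        · have hs0 : s = 1 := by
            rcases eq_or_lt_of_le s.2.2 with h | h
            · exact Subtype.ext h
            · exact absurd ⟨hs2, h⟩ hs
          change f s ∈ U
          rw [hs0, hf1]
          exact mem_of_mem_nhds hU
  exact ⟨⟨f, hcont⟩, hf0, hf1, hfin⟩

theorem neBot_zero : (Filter.comap (Subtype.val : Ioo (0 : ℝ) 1 → ℝ) (𝓝 0)).NeBot := by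
  rw [← mem_closure_iff_comap_neBot, closure_Ioo (by norm_num)]
  exact ⟨le_rfl, zero_le_one⟩

theorem neBot_one : (Filter.comap (Subtype.val : Ioo (0 : ℝ) 1 → ℝ) (𝓝 1)).NeBot := by
  rw [← mem_closure_iff_comap_neBot, closure_Ioo (by norm_num)]
  exact ⟨zero_le_one, le_rfl⟩

/-- reflection of the open interval -/
def reflIoo : Ioo (0 : ℝ) 1 ≃ₜ Ioo (0 : ℝ) 1 where
  toFun t := ⟨1 - t.1, by have := t.2.1; have := t.2.2; constructor <;> linarith⟩
  invFun t := ⟨1 - t.1, by have := t.2.1; have := t.2.2; constructor <;> linarith⟩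
  left_inv t := by apply Subtype.ext; simp
  right_inv t := by apply Subtype.ext; simp
  continuous_toFun := Continuous.subtype_mk (by fun_prop)
    (fun t => by have := t.2.1; have := t.2.2; constructor <;> linarith)
  continuous_invFun := Continuous.subtype_mk (by fun_prop)
    (fun t => by have := t.2.1; have := t.2.2; constructor <;> linarith)

theorem hasEnds_symm {e : Set X} {a b : X} (h : HasEnds e a b) : HasEnds e b a := by
  obtain ⟨φ, ha, hb⟩ := h
  refine ⟨φ.trans reflIoo, ?_, ?_⟩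
  · have hr : Filter.Tendsto reflIoo.symm (Filter.comap (Subtype.val : Ioo (0 : ℝ) 1 → ℝ) (𝓝 0))
        (Filter.comap Subtype.val (𝓝 1)) := by
      rw [Filter.tendsto_comap_iff]
      have h2 : Filter.Tendsto (fun x : ℝ => 1 - x) (𝓝 0) (𝓝 1) := by
        have : Continuous (fun x : ℝ => 1 - x) := by fun_prop
        simpa using this.tendsto (0 : ℝ)
      exact h2.comp (Filter.tendsto_comap (f := (Subtype.val : Ioo (0 : ℝ) 1 → ℝ)))
    exact hb.comp hr
  · have hr : Filter.Tendsto reflIoo.symm (Filter.comap (Subtype.val : Ioo (0 : ℝ) 1 → ℝ) (𝓝 1))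
        (Filter.comap Subtype.val (𝓝 0)) := by
      rw [Filter.tendsto_comap_iff]
      have h2 : Filter.Tendsto (fun x : ℝ => 1 - x) (𝓝 1) (𝓝 0) := by
        have : Continuous (fun x : ℝ => 1 - x) := by fun_prop
        simpa using this.tendsto (1 : ℝ)
      exact h2.comp (Filter.tendsto_comap (f := (Subtype.val : Ioo (0 : ℝ) 1 → ℝ)))
    exact ha.comp hr

/-- data of a free arc -/
theorem edge_data (hF1 : Free1Stmt X) {e : Set X} (he : IsFreeArc e) : ∃ Φ : C(I, X),
    Φ 0 ∉ e ∧ Φ 1 ∉ e ∧ closure e = e ∪ {Φ 0, Φ 1} ∧ Φ '' Ioo 0 1 = e ∧ InjOn Φ (Ioo 0 1) ∧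
    (∀ O : Set I, IsOpen O → O ⊆ Ioo 0 1 → IsOpen (Φ '' O)) ∧
    HasEnds e (Φ 0) (Φ 1) ∧ HasEnds e (Φ 1) (Φ 0) ∧
    ∀ a b, HasEnds e a b → ({a, b} : Set X) = {Φ 0, Φ 1} := by
  obtain ⟨heo, ⟨φ⟩⟩ := he
  obtain ⟨a, b, hae, hbe, hcl, ha, hb⟩ := hF1 e heo φ
  obtain ⟨Φ, h0, h1, hΦ⟩ := ext_curve φ ha hb
  have hmem : ∀ t : I, t ∈ Ioo (0 : I) 1 → (t : ℝ) ∈ Ioo (0 : ℝ) 1 := fun t ht => ⟨ht.1, ht.2⟩
  have hends : ∀ a' b', HasEnds e a' b' → ({a', b'} : Set X) = closure e \ e := by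
    rintro a' b' ⟨ψ, ha', hb'⟩
    obtain ⟨a1, b1, ha1, hb1, hcl1, ha2, hb2⟩ := hF1 e heo ψ
    have := neBot_zero
    have := neBot_one
    have e1 : a' = a1 := tendsto_nhds_unique ha' ha2
    have e2 : b' = b1 := tendsto_nhds_unique hb' hb2
    rw [hcl1, e1, e2]
    ext z
    constructor
    · rintro (rfl | rfl)
      · exact ⟨Or.inr (Or.inl rfl), ha1⟩
      · exact ⟨Or.inr (Or.inr rfl), hb1⟩
    · rintro ⟨h | h, h'⟩
      · exact absurd h h'
      · exact h
  have hE : HasEnds e (Φ 0) (Φ 1) := ⟨φ, by rw [h0]; exact ha, by rw [h1]; exact hb⟩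
  refine ⟨Φ, by rw [h0]; exact hae, by rw [h1]; exact hbe, by rw [h0, h1]; exact hcl, ?_, ?_, ?_,
    hE, hasEnds_symm hE, ?_⟩
  · ext z
    constructor
    · rintro ⟨t, ht, rfl⟩
      rw [hΦ t (hmem t ht)]
      exact (φ.symm _).2
    · intro hz
      have ht := (φ ⟨z, hz⟩).2
      refine ⟨⟨(φ ⟨z, hz⟩ : ℝ), ht.1.le, ht.2.le⟩, ⟨ht.1, ht.2⟩, ?_⟩
      rw [hΦ _ ht]
      exact congrArg Subtype.val (φ.symm_apply_apply ⟨z, hz⟩)
  · intro s hs t ht hst
    rw [hΦ s (hmem s hs), hΦ t (hmem t ht)] at hst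
    have := φ.symm.injective (Subtype.ext hst)
    apply Subtype.ext
    exact congrArg (fun x : Ioo (0 : ℝ) 1 => (x : ℝ)) this
  · intro O hO hOI
    obtain ⟨O', hO', hOO'⟩ := isOpen_induced_iff.1 hO
    have hset : Φ '' O = Subtype.val '' (φ ⁻¹' (Subtype.val ⁻¹' O' : Set (Ioo (0 : ℝ) 1))) := by
      ext z
      constructor
      · rintro ⟨t, ht, rfl⟩
        refine ⟨φ.symm ⟨t, hmem t (hOI ht)⟩, ?_, (hΦ t (hmem t (hOI ht))).symm⟩
        change ((φ (φ.symm ⟨t, _⟩) : Ioo (0 : ℝ) 1) : ℝ) ∈ O'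
        rw [φ.apply_symm_apply]
        rw [← hOO'] at ht
        exact ht
      · rintro ⟨y, hy, rfl⟩
        have ht := (φ y).2
        refine ⟨⟨(φ y : ℝ), ht.1.le, ht.2.le⟩, ?_, ?_⟩
        · rw [← hOO']
          exact hy
        · rw [hΦ _ ht]
          exact congrArg Subtype.val (φ.symm_apply_apply y)
    rw [hset]
    exact heo.isOpenMap_subtype_val _ ((hO'.preimage continuous_subtype_val).preimage φ.continuous)
  · intro a' b' h
    rw [hends a' b' h, hends _ _ hE]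

end Pool.Agent.EU.H8
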